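import Mathlib

/-!
The square root of the projection of a unit of `ℤ_[p]` to the principal units, `p` odd.
-/

set_option autoImplicit false
set_option linter.unusedSectionVars false

namespace Pool.Agent.N829.HT

open Polynomial

variable {p : ℕ} [hp : Fact p.Prime]

theorem norm_geom_eq_one {y : ℤ_[p]} (hy : ‖y - 1‖ < 1) {k : ℕ} (hk : ¬ p ∣ k) :
    ‖∑ i ∈ Finset.range k, y ^ i‖ = 1 := by
  have h1 : ‖(∑ i ∈ Finset.range k, y ^ i) - (k : ℤ_[p])‖ < 1 := by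
    have e : (∑ i ∈ Finset.range k, y ^ i) - (k : ℤ_[p]) = ∑ i ∈ Finset.range k, (y ^ i - 1) := by
      rw [Finset.sum_sub_distrib]
      simp
    rw [e]
    have h2 : ∑ i ∈ Finset.range k, (y ^ i - 1) ∈ IsLocalRing.maximalIdeal ℤ_[p] := by
      refine sum_mem fun i _ => ?_
      rw [← geom_sum_mul]
      refine Ideal.mul_mem_left _ _ ?_
      rw [PadicInt.maximalIdeal_eq_span_p, Ideal.mem_span_singleton, ← PadicInt.norm_lt_one_iff_dvd]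
      exact hy
    rw [PadicInt.maximalIdeal_eq_span_p, Ideal.mem_span_singleton, ← PadicInt.norm_lt_one_iff_dvd]
      at h2
    exact h2
  have h3 : ‖(k : ℤ_[p])‖ = 1 := by
    rw [PadicInt.norm_natCast_eq_one_iff]
    exact (Nat.Prime.coprime_iff_not_dvd hp.out).2 hk
  have h4 : (∑ i ∈ Finset.range k, y ^ i) = ((∑ i ∈ Finset.range k, y ^ i) - (k : ℤ_[p])) + k := by
    ring
  rw [h4, PadicInt.norm_add_eq_max_of_ne (by rw [h3]; exact h1.ne), h3, max_eq_right h1.le]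

theorem norm_pow_sub_one {y : ℤ_[p]} (hy : ‖y - 1‖ < 1) {k : ℕ} (hk : ¬ p ∣ k) :
    ‖y ^ k - 1‖ = ‖y - 1‖ := by
  rw [← geom_sum_mul, norm_mul, norm_geom_eq_one hy hk, one_mul]

theorem norm_mul_sub_one {x y : ℤ_[p]} (hx : ‖x - 1‖ < 1) (hy : ‖y - 1‖ < 1) :
    ‖x * y - 1‖ < 1 := by
  rw [PadicInt.norm_lt_one_iff_dvd] at hx hy ⊢
  have : x * y - 1 = (x - 1) * y + (y - 1) := by ring
  rw [this]
  exact dvd_add (hx.mul_right y) hy

theorem norm_eq_one_of {x : ℤ_[p]} (hx : ‖x - 1‖ < 1) : ‖x‖ = 1 := by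
  have h : x = (x - 1) + 1 := by ring
  rw [h, PadicInt.norm_add_eq_max_of_ne (by rw [norm_one]; exact hx.ne), norm_one,
    max_eq_right hx.le]

theorem root_unique {x y : ℤ_[p]} (hx : ‖x - 1‖ < 1) (hy : ‖y - 1‖ < 1) {k : ℕ} (hk : ¬ p ∣ k)
    (h : x ^ k = y ^ k) : x = y := by
  obtain ⟨u, hu⟩ := PadicInt.isUnit_iff.2 (norm_eq_one_of hy)
  set z : ℤ_[p] := x * ((u⁻¹ : ℤ_[p]ˣ) : ℤ_[p]) with hz
  have hzy : z * y = x := by rw [hz, ← hu, mul_assoc, Units.inv_mul, mul_one]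
  have hz1 : ‖z - 1‖ < 1 := by
    rw [PadicInt.norm_lt_one_iff_dvd] at hx hy ⊢
    have h1 : (p : ℤ_[p]) ∣ (z - 1) * y := by
      have : (z - 1) * y = (x - 1) - (y - 1) := by rw [sub_mul, hzy]; ring
      rw [this]
      exact dvd_sub hx hy
    have h2 : z - 1 = (z - 1) * y * ((u⁻¹ : ℤ_[p]ˣ) : ℤ_[p]) := by
      rw [← hu, mul_assoc, Units.mul_inv, mul_one]
    rw [h2]
    exact h1.mul_right _
  have h2 : z ^ k = 1 := by
    have h3 : z ^ k * y ^ k = 1 * y ^ k := by rw [← mul_pow, hzy, h, one_mul]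
    rw [← hu] at h3
    exact ((u.isUnit.pow k).mul_left_inj).1 h3
  have h3 := norm_pow_sub_one hz1 hk
  rw [h2, sub_self, norm_zero] at h3
  have h4 : z = 1 := sub_eq_zero.1 (norm_eq_zero.1 h3.symm)
  rw [← hzy, h4, one_mul]

theorem exists_root_of {w : ℤ_[p]} (hw : ‖w - 1‖ < 1) {k : ℕ} (hk : ¬ p ∣ k) :
    ∃ z : ℤ_[p], z ^ k = w ∧ ‖z - 1‖ < 1 := by
  have hk1 : ‖(k : ℤ_[p])‖ = 1 := by
    rw [PadicInt.norm_natCast_eq_one_iff]
    exact (Nat.Prime.coprime_iff_not_dvd hp.out).2 hk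
  have hd : ‖(derivative (X ^ k - C w : ℤ_[p][X])).aeval (1 : ℤ_[p])‖ = 1 := by
    rw [derivative_sub, derivative_X_pow, derivative_C, sub_zero]
    simp [hk1]
  have h0 : ‖(X ^ k - C w : ℤ_[p][X]).aeval (1 : ℤ_[p])‖ <
      ‖(derivative (X ^ k - C w : ℤ_[p][X])).aeval (1 : ℤ_[p])‖ ^ 2 := by
    rw [hd, one_pow]
    have : (X ^ k - C w : ℤ_[p][X]).aeval (1 : ℤ_[p]) = -(w - 1) := by simp
    rw [this, norm_neg]
    exact hw
  obtain ⟨z, hz1, hz2, -⟩ := hensels_lemma h0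
  refine ⟨z, ?_, ?_⟩
  · have : (X ^ k - C w : ℤ_[p][X]).aeval z = z ^ k - w := by simp
    rw [this] at hz1
    exact sub_eq_zero.1 hz1
  · rw [hd] at hz2
    exact hz2

theorem norm_unit_pow_sub_one (u : ℤ_[p]ˣ) : ‖(u : ℤ_[p]) ^ (p - 1) - 1‖ < 1 := by
  rw [PadicInt.norm_lt_one_iff_dvd, ← Ideal.mem_span_singleton, ← PadicInt.maximalIdeal_eq_span_p,
    ← PadicInt.ker_toZMod, RingHom.mem_ker, map_sub, map_one, map_pow, sub_eq_zero]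
  apply ZMod.pow_card_sub_one_eq_one
  have : IsUnit (PadicInt.toZMod (p := p) (u : ℤ_[p])) := u.isUnit.map _
  exact this.ne_zero

theorem not_dvd_exp (h2 : p ≠ 2) : ¬ p ∣ 2 * (p - 1) := by
  intro h
  have hp1 := hp.out.two_le
  rcases (Nat.Prime.dvd_mul hp.out).1 h with h | h
  · exact h2 ((Nat.prime_dvd_prime_iff_eq hp.out Nat.prime_two).1 h)
  · have := Nat.le_of_dvd (by omega) h
    omega

theorem exists_sq (h2 : p ≠ 2) : ∃ f : ℤ_[p]ˣ →* ℤ_[p]ˣ, ∀ u : ℤ_[p]ˣ,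
    ‖((f u : ℤ_[p]ˣ) : ℤ_[p]) - 1‖ < 1 ∧ (f u) ^ (2 * (p - 1)) = u ^ (p - 1) := by
  have hk := not_dvd_exp (p := p) h2
  have h : ∀ u : ℤ_[p]ˣ, ∃ v : ℤ_[p]ˣ, ‖(v : ℤ_[p]) - 1‖ < 1 ∧ v ^ (2 * (p - 1)) = u ^ (p - 1) := by
    intro u
    obtain ⟨z, hz1, hz2⟩ := exists_root_of (norm_unit_pow_sub_one u) hk
    obtain ⟨v, hv⟩ := PadicInt.isUnit_iff.2 (norm_eq_one_of hz2)
    refine ⟨v, by rw [hv]; exact hz2, Units.ext ?_⟩
    rw [Units.val_pow_eq_pow_val, Units.val_pow_eq_pow_val, hv, hz1]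
  choose f hf1 hf2 using h
  refine ⟨MonoidHom.mk' f fun u v => ?_, fun u => ⟨hf1 u, hf2 u⟩⟩
  apply Units.ext
  refine root_unique (hf1 _) ?_ hk ?_
  · rw [Units.val_mul]
    exact norm_mul_sub_one (hf1 u) (hf1 v)
  · rw [← Units.val_pow_eq_pow_val, ← Units.val_pow_eq_pow_val, hf2, mul_pow, mul_pow, hf2, hf2]

theorem norm_sq_sub_one_le (h2 : p ≠ 2) {f : ℤ_[p]ˣ →* ℤ_[p]ˣ} (hf : ∀ u : ℤ_[p]ˣ,
    ‖((f u : ℤ_[p]ˣ) : ℤ_[p]) - 1‖ < 1 ∧ (f u) ^ (2 * (p - 1)) = u ^ (p - 1)) (u : ℤ_[p]ˣ) :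
    ‖((f u : ℤ_[p]ˣ) : ℤ_[p]) - 1‖ ≤ ‖(u : ℤ_[p]) - 1‖ := by
  have h1 := norm_pow_sub_one (hf u).1 (not_dvd_exp (p := p) h2)
  rw [← h1, ← Units.val_pow_eq_pow_val, (hf u).2, Units.val_pow_eq_pow_val, ← geom_sum_mul,
    norm_mul]
  exact mul_le_of_le_one_left (norm_nonneg _) (PadicInt.norm_le_one _)

/-- The square root map is continuous. -/
theorem continuous_sq (h2 : p ≠ 2) {f : ℤ_[p]ˣ →* ℤ_[p]ˣ} (hf : ∀ u : ℤ_[p]ˣ,
    ‖((f u : ℤ_[p]ˣ) : ℤ_[p]) - 1‖ < 1 ∧ (f u) ^ (2 * (p - 1)) = u ^ (p - 1)) : Continuous f := by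
  refine Continuous.of_coeHom_comp ?_
  apply continuous_of_continuousAt_one
  rw [ContinuousAt, map_one, tendsto_iff_norm_sub_tendsto_zero]
  have h3 : Filter.Tendsto (fun u : ℤ_[p]ˣ => ‖(u : ℤ_[p]) - 1‖) (nhds 1) (nhds 0) := by
    have h4 : Continuous fun u : ℤ_[p]ˣ => ‖(u : ℤ_[p]) - 1‖ :=
      (Units.continuous_val.sub continuous_const).norm
    have h5 := h4.tendsto 1
    simpa using h5
  exact squeeze_zero (fun u => norm_nonneg _) (fun u => norm_sq_sub_one_le h2 hf u) h3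

end Pool.Agent.N829.HT
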