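import Mathlib
import Pool.Agent.N829.HT.Root

/-!
The cyclotomic character of the absolute Galois group of a number field: inertia groups and
Frobenius elements away from `l`.
-/

set_option autoImplicit false
set_option linter.unusedSectionVars false

namespace Pool.Agent.N829.HT

open NumberField

/-- the absolute Galois group of the field `F`, with the Krull topology -/
abbrev AbsGal (F : Type) [Field F] : Type := Gal(AlgebraicClosure F/F)

variable {F : Type} [Field F] [NumberField F] {l : ℕ} [hl : Fact l.Prime]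

variable (F l) in
/-- the `l`-adic cyclotomic character of the absolute Galois group of `F` -/
noncomputable def chiF : AbsGal F →* ℤ_[l]ˣ :=
  (cyclotomicCharacter (AlgebraicClosure F) l).comp
    (MulSemiringAction.toRingAut (AbsGal F) (AlgebraicClosure F))

theorem continuous_chiF : Continuous (chiF F l) :=
  cyclotomicCharacter.continuous l F (AlgebraicClosure F)

theorem chiF_spec (g : AbsGal F) {n : ℕ} {t : AlgebraicClosure F} (ht : t ^ l ^ n = 1) :
    g t = t ^ (((chiF F l g : ℤ_[l]ˣ) : ℤ_[l]).toZModPow n).val :=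
  cyclotomicCharacter.spec (L := AlgebraicClosure F) l
    (MulSemiringAction.toRingAut (AbsGal F) (AlgebraicClosure F) g) t ht

/-- A root of unity of `l`-power order which is congruent to `1` modulo a maximal ideal that does not
contain `l` is `1`. -/
theorem root_eq_one {P : Ideal (𝓞 (AlgebraicClosure F))} (hP : P.IsMaximal)
    (hlP : (l : 𝓞 (AlgebraicClosure F)) ∉ P) {z : 𝓞 (AlgebraicClosure F)} {n : ℕ}
    (hz : z ^ l ^ n = 1) (h : z - 1 ∈ P) : z = 1 := by
  by_contra hne
  have h1 : (∑ i ∈ Finset.range (l ^ n), z ^ i) * (z - 1) = 0 := by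
    rw [geom_sum_mul, hz, sub_self]
  have h2 : ∑ i ∈ Finset.range (l ^ n), z ^ i = 0 :=
    (mul_eq_zero.1 h1).resolve_right (sub_ne_zero.2 hne)
  have h3 : (∑ i ∈ Finset.range (l ^ n), z ^ i) - ((l ^ n : ℕ) : 𝓞 (AlgebraicClosure F)) ∈ P := by
    have e : (∑ i ∈ Finset.range (l ^ n), z ^ i) - ((l ^ n : ℕ) : 𝓞 (AlgebraicClosure F)) =
        ∑ i ∈ Finset.range (l ^ n), (z ^ i - 1) := by
      rw [Finset.sum_sub_distrib]
      simp
    rw [e]
    refine sum_mem fun i _ => ?_
    rw [← geom_sum_mul]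
    exact Ideal.mul_mem_left _ _ h
  rw [h2, zero_sub, Ideal.neg_mem_iff, Nat.cast_pow] at h3
  exact hlP (hP.isPrime.mem_of_pow_mem n h3)

theorem smul_coe (g : AbsGal F) (x : 𝓞 (AlgebraicClosure F)) :
    ((g • x : 𝓞 (AlgebraicClosure F)) : AlgebraicClosure F) = g (x : AlgebraicClosure F) := rfl

/-- A root of unity in the ring of integers. -/
theorem exists_root_int {t : AlgebraicClosure F} {n : ℕ} (ht : t ^ l ^ n = 1) :
    ∃ z : 𝓞 (AlgebraicClosure F), (z : AlgebraicClosure F) = t ∧ z ^ l ^ n = 1 := by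
  have hint : IsIntegral ℤ t := by
    refine IsIntegral.of_pow (pow_pos hl.out.pos n) ?_
    rw [ht]
    exact isIntegral_one
  refine ⟨⟨t, hint⟩, rfl, ?_⟩
  exact RingOfIntegers.ext ht

theorem toZModPow_eq_of {x : ℤ_[l]} {n k : ℕ} {t : AlgebraicClosure F}
    (ht : IsPrimitiveRoot t (l ^ n)) (h : t ^ ((x.toZModPow n).val * k) = t) :
    (x * k).toZModPow n = 1 := by
  have hn : NeZero (l ^ n) := ⟨pow_ne_zero _ hl.out.ne_zero⟩
  rw [map_mul, map_natCast]
  have h1 : (x.toZModPow n).val * k ≡ 1 [MOD l ^ n] := by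
    have h0 : t ≠ 0 := ht.ne_zero hn.out
    have h2 : t ^ ((((x.toZModPow n).val * k : ℕ) : ℤ) - 1) = 1 := by
      rw [zpow_sub₀ h0, zpow_natCast, h, zpow_one, div_self h0]
    have h3 := (ht.zpow_eq_one_iff_dvd _).1 h2
    refine (Nat.modEq_iff_dvd.2 ?_).symm
    rw [Nat.cast_one]
    exact h3
  have h3 := (ZMod.natCast_eq_natCast_iff _ _ _).2 h1
  rw [Nat.cast_mul, ZMod.natCast_zmod_val, Nat.cast_one] at h3
  exact h3

/-- The cyclotomic character is unramified away from `l`. -/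
theorem chiF_inertia {P : Ideal (𝓞 (AlgebraicClosure F))} (hP : P.IsMaximal)
    (hlP : (l : 𝓞 (AlgebraicClosure F)) ∉ P) {g : AbsGal F}
    (hg : ∀ x : 𝓞 (AlgebraicClosure F), g • x - x ∈ P) : chiF F l g = 1 := by
  apply Units.ext
  rw [Units.val_one]
  refine PadicInt.ext_of_toZModPow.1 fun n => ?_
  obtain ⟨t, ht⟩ := HasEnoughRootsOfUnity.exists_primitiveRoot (AlgebraicClosure F) (l ^ n)
  obtain ⟨z, hz1, hz2⟩ := exists_root_int ht.pow_eq_one
  have h1 : g t = t := by
    have hzu : z * z ^ (l ^ n - 1) = 1 := by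
      rw [← pow_succ', Nat.sub_add_cancel (Nat.one_le_pow _ _ hl.out.pos), hz2]
    have h2 : (g • z) * z ^ (l ^ n - 1) - 1 ∈ P := by
      have e : (g • z) * z ^ (l ^ n - 1) - 1 = (g • z - z) * z ^ (l ^ n - 1) := by
        rw [sub_mul, hzu]
      rw [e]
      exact Ideal.mul_mem_right _ _ (hg z)
    have h3 : ((g • z) * z ^ (l ^ n - 1)) ^ l ^ n = 1 := by
      rw [mul_pow, ← smul_pow', hz2, smul_one, one_mul, ← pow_mul, mul_comm, pow_mul, hz2, one_pow]
    have h4 := root_eq_one hP hlP h3 h2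
    have h5 : g • z = z := by
      calc g • z = (g • z) * (z ^ (l ^ n - 1) * z) := by rw [mul_comm _ z, hzu, mul_one]
        _ = z := by rw [← mul_assoc, h4, one_mul]
    rw [← hz1, ← smul_coe, h5]
  have h2 := chiF_spec g (l := l) ht.pow_eq_one
  rw [h1] at h2
  have h3 := toZModPow_eq_of (x := ((chiF F l g : ℤ_[l]ˣ) : ℤ_[l])) (k := 1) ht
    (by rw [mul_one]; exact h2.symm)
  rw [Nat.cast_one, mul_one] at h3
  rw [h3, map_one]

/-- The value of the cyclotomic character at a geometric Frobenius element. -/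
theorem chiF_frob {P : Ideal (𝓞 (AlgebraicClosure F))} (hP : P.IsMaximal)
    (hlP : (l : 𝓞 (AlgebraicClosure F)) ∉ P) {q : ℕ} {g : AbsGal F}
    (hg : ∀ x : 𝓞 (AlgebraicClosure F), (g • x) ^ q - x ∈ P) :
    ((chiF F l g : ℤ_[l]ˣ) : ℤ_[l]) * q = 1 := by
  refine PadicInt.ext_of_toZModPow.1 fun n => ?_
  obtain ⟨t, ht⟩ := HasEnoughRootsOfUnity.exists_primitiveRoot (AlgebraicClosure F) (l ^ n)
  obtain ⟨z, hz1, hz2⟩ := exists_root_int ht.pow_eq_one
  have h1 : (g t) ^ q = t := by
    have hzu : z * z ^ (l ^ n - 1) = 1 := by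
      rw [← pow_succ', Nat.sub_add_cancel (Nat.one_le_pow _ _ hl.out.pos), hz2]
    have h2 : (g • z) ^ q * z ^ (l ^ n - 1) - 1 ∈ P := by
      have e : (g • z) ^ q * z ^ (l ^ n - 1) - 1 = ((g • z) ^ q - z) * z ^ (l ^ n - 1) := by
        rw [sub_mul, hzu]
      rw [e]
      exact Ideal.mul_mem_right _ _ (hg z)
    have h3 : ((g • z) ^ q * z ^ (l ^ n - 1)) ^ l ^ n = 1 := by
      rw [mul_pow, ← pow_mul, mul_comm q, pow_mul, ← smul_pow', hz2, smul_one, one_pow, one_mul,
        ← pow_mul, mul_comm, pow_mul, hz2, one_pow]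
    have h4 := root_eq_one hP hlP h3 h2
    have h5 : (g • z) ^ q = z := by
      calc (g • z) ^ q = (g • z) ^ q * (z ^ (l ^ n - 1) * z) := by rw [mul_comm _ z, hzu, mul_one]
        _ = z := by rw [← mul_assoc, h4, one_mul]
    have h6 := congrArg (fun x : 𝓞 (AlgebraicClosure F) => (x : AlgebraicClosure F)) h5
    simp only [map_pow] at h6
    rw [← hz1]
    exact h6
  have h2 := chiF_spec g (l := l) ht.pow_eq_one
  rw [h2, ← pow_mul] at h1
  rw [toZModPow_eq_of ht h1, map_one]

end Pool.Agent.N829.HT
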