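import Mathlib
import Pool.Agent.W292.FM.Tilt

/-!
The kernel of Fontaine's map `θ` for the ring of integers of `ℂ_[p]`, and divisibility in the
completion of a domain at a principal ideal.
-/

set_option autoImplicit false
set_option linter.unusedSectionVars false

namespace Pool.Agent.N829.HT

open Pool.Agent.W292.FM Ideal WittVector

section Gen

variable {A : Type*} [CommRing A] [IsDomain A] {I : Ideal A} {a : A}

theorem evalA_shift (hI : I = Ideal.span {a}) (ha : a ≠ 0) (n : ℕ) {b : AdicCompletion I A}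
    (h : AdicCompletion.evalₐ I (n + 1) (AdicCompletion.of I A a * b) = 0) :
    AdicCompletion.evalₐ I n b = 0 := by
  obtain ⟨y, hy⟩ := Ideal.Quotient.mk_surjective (AdicCompletion.evalₐ I (n + 1) b)
  rw [map_mul, AdicCompletion.evalₐ_of, ← hy, ← map_mul, Ideal.Quotient.eq_zero_iff_mem, hI,
    Ideal.span_singleton_pow, Ideal.mem_span_singleton, pow_succ'] at h
  have h1 : a ^ n ∣ y := (mul_dvd_mul_iff_left ha).1 h
  rw [← factorPow_evalₐ I (Nat.le_succ n) b]
  change Ideal.Quotient.factorPow I (Nat.le_succ n) (AdicCompletion.evalₐ I (n + 1) b) = 0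
  rw [← hy]
  change Ideal.Quotient.mk (I ^ n) y = 0
  rw [Ideal.Quotient.eq_zero_iff_mem, hI, Ideal.span_singleton_pow, Ideal.mem_span_singleton]
  exact h1

theorem eq_zero_of_mul (hI : I = Ideal.span {a}) (ha : a ≠ 0) {b : AdicCompletion I A}
    (h : AdicCompletion.of I A a * b = 0) : b = 0 := by
  refine AdicCompletion.ext_evalₐ (I := I) fun n => ?_
  rw [map_zero]
  apply evalA_shift hI ha
  rw [h, map_zero]

theorem exists_mul (hI : I = Ideal.span {a}) {b : AdicCompletion I A}
    (h : AdicCompletion.evalₐ I 1 b = 0) : ∃ b', b = AdicCompletion.of I A a * b' := by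
  have hfg : I.FG := ⟨{a}, by rw [hI]; simp⟩
  have h1 : b ∈ RingHom.ker (AdicCompletion.evalOneₐ I).toRingHom := by
    rw [RingHom.mem_ker]
    change AdicCompletion.evalOneₐ I b = 0
    rw [← AdicCompletion.factorₐ_evalₐ_one, h, map_zero]
  rw [AdicCompletion.ker_evalOneₐ_eq_map I hfg] at h1
  have h2 : Ideal.map (algebraMap A (AdicCompletion I A)) I ≤
      Ideal.span {AdicCompletion.of I A a} := by
    rw [Ideal.map_le_iff_le_comap]
    intro x hx
    rw [hI, Ideal.mem_span_singleton] at hx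
    obtain ⟨c, rfl⟩ := hx
    rw [Ideal.mem_comap, Ideal.mem_span_singleton, map_mul]
    exact dvd_mul_right _ _
  obtain ⟨b', hb'⟩ := Ideal.mem_span_singleton.1 (h2 h1)
  exact ⟨b', hb'⟩

theorem exists_leading (hI : I = Ideal.span {a}) {b : AdicCompletion I A}
    (hb : b ≠ 0) : ∃ (n : ℕ) (b' : AdicCompletion I A), b = AdicCompletion.of I A a ^ n * b' ∧
      AdicCompletion.evalₐ I 1 b' ≠ 0 := by
  obtain ⟨N, hN⟩ : ∃ N, AdicCompletion.evalₐ I N b ≠ 0 := by
    by_contra hcon
    push Not at hcon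
    exact hb (AdicCompletion.ext_evalₐ (I := I) fun n => by rw [hcon n, map_zero])
  clear hb
  induction N generalizing b with
  | zero =>
    exfalso
    apply hN
    obtain ⟨y, hy⟩ := Ideal.Quotient.mk_surjective (AdicCompletion.evalₐ I 0 b)
    rw [← hy, Ideal.Quotient.eq_zero_iff_mem, pow_zero, Ideal.one_eq_top]
    exact Submodule.mem_top
  | succ N ih =>
    by_cases h1 : AdicCompletion.evalₐ I 1 b = 0
    · obtain ⟨b', rfl⟩ := exists_mul hI h1
      have h2 : AdicCompletion.evalₐ I N b' ≠ 0 := by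
        intro h3
        apply hN
        obtain ⟨y, hy⟩ := Ideal.Quotient.mk_surjective (AdicCompletion.evalₐ I (N + 1) b')
        have h4 : Ideal.Quotient.mk (I ^ N) y = 0 := by
          rw [← h3, ← factorPow_evalₐ I (Nat.le_succ N) b']
          change _ = Ideal.Quotient.factorPow I (Nat.le_succ N) (AdicCompletion.evalₐ I (N + 1) b')
          rw [← hy]
          rfl
        rw [Ideal.Quotient.eq_zero_iff_mem, hI, Ideal.span_singleton_pow,
          Ideal.mem_span_singleton] at h4
        rw [map_mul, AdicCompletion.evalₐ_of, ← hy, ← map_mul, Ideal.Quotient.eq_zero_iff_mem, hI,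
          Ideal.span_singleton_pow, Ideal.mem_span_singleton, pow_succ']
        exact mul_dvd_mul_left a h4
      obtain ⟨n, b'', h5, h6⟩ := ih h2
      exact ⟨n + 1, b'', by rw [h5]; ring, h6⟩
    · exact ⟨0, b, by simp, h1⟩

end Gen

variable (p : ℕ) [hp : Fact p.Prime]

/-- The generator `p - [p^♭]` of the kernel of `θ`. -/
noncomputable def xi0 : AI p := (p : AI p) - teichmuller p (pflat p)

variable {p}

theorem theta_xi0 : fontaineTheta 𝓞_ℂ_[p] p (xi0 p) = 0 := by
  rw [xi0, map_sub, map_natCast, fontaineTheta_teichmuller, untilt_pflat, sub_self]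

theorem pflat_ne_zero : pflat p ≠ 0 := by
  intro h
  have h1 := norm_p_pos p
  have h2 := untilt_pflat (p := p)
  rw [h] at h2
  have h3 : (0 : TT p).untilt = (0 : 𝓞_ℂ_[p]) := by
    have h0 : (0 : TT p) = mkT (p := p) (fun _ => 0) (fun n => zero_pow hp.out.ne_zero) := by
      refine Perfection.ext fun n => ?_
      change PreTilt.coeff n (0 : TT p) = PreTilt.coeff n (mkT (fun _ => 0) _)
      rw [coeff_mkT, map_zero, map_zero]
    rw [h0, untilt_mkT]
  rw [h3] at h2
  have h4 := congrArg (fun x : 𝓞_ℂ_[p] => (x : ℂ_[p])) h2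
  simp only [ZeroMemClass.coe_zero] at h4
  have h5 : ((p : 𝓞_ℂ_[p]) : ℂ_[p]) = (p : ℂ_[p]) := by simp
  rw [h5] at h4
  rw [← h4, norm_zero] at h1
  exact lt_irrefl _ h1

theorem coeff_zero_xi0 : (xi0 p).coeff 0 = -(pflat p) := by
  have h : WittVector.constantCoeff (xi0 p) = -(pflat p) := by
    rw [xi0, map_sub, map_natCast]
    have h1 : ((p : ℕ) : TT p) = 0 := CharP.cast_eq_zero (TT p) p
    have h2 : WittVector.constantCoeff (teichmuller p (pflat p)) = pflat p :=
      teichmuller_coeff_zero p (pflat p)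
    rw [h1, h2, zero_sub]
  exact h

theorem xi0_ne_zero : xi0 p ≠ 0 := by
  intro h
  have h1 := coeff_zero_xi0 (p := p)
  rw [h, WittVector.zero_coeff] at h1
  exact pflat_ne_zero (neg_eq_zero.1 h1.symm)

theorem ker_step {x : AI p} (hx : fontaineTheta 𝓞_ℂ_[p] p x = 0) :
    ∃ z y : AI p, x = xi0 p * z + (p : AI p) * y ∧ fontaineTheta 𝓞_ℂ_[p] p y = 0 := by
  have h1 : PreTilt.coeff 0 (x.coeff 0) = 0 := by
    rw [← mk_fontaineTheta, hx, map_zero]
  obtain ⟨z, hz⟩ := pflat_dvd h1
  have h2 : x - teichmuller p (pflat p) * teichmuller p z ∈ Ideal.span {(p : AI p)} := by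
    rw [mem_span_p_iff_coeff_zero_eq_zero]
    have h3 : WittVector.constantCoeff (x - teichmuller p (pflat p) * teichmuller p z) = 0 := by
      rw [map_sub, map_mul]
      have h4 : ∀ t : TT p, WittVector.constantCoeff (teichmuller p t) = t := fun t =>
        teichmuller_coeff_zero p t
      rw [h4, h4, ← hz]
      exact sub_self _
    exact h3
  rw [Ideal.mem_span_singleton] at h2
  obtain ⟨w, hw⟩ := h2
  refine ⟨-teichmuller p z, teichmuller p z + w, ?_, ?_⟩
  · rw [xi0]
    linear_combination hw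
  · have h5 : x = xi0 p * (-teichmuller p z) + (p : AI p) * (teichmuller p z + w) := by
      rw [xi0]
      linear_combination hw
    have h6 := hx
    rw [h5, map_add, map_mul, theta_xi0, zero_mul, zero_add, map_mul, map_natCast] at h6
    have h7 : (p : 𝓞_ℂ_[p]) ≠ 0 := by
      intro h8
      have h9 := congrArg (fun x : 𝓞_ℂ_[p] => (x : ℂ_[p])) h8
      simp only [ZeroMemClass.coe_zero] at h9
      have h5 : ((p : 𝓞_ℂ_[p]) : ℂ_[p]) = (p : ℂ_[p]) := by simp
      rw [h5] at h9
      exact p_ne_zero p h9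
    exact (mul_eq_zero.1 h6).resolve_left h7

/-- The kernel of `θ` is generated by `p - [p^♭]`. -/
theorem dvd_of_theta {x : AI p} (hx : fontaineTheta 𝓞_ℂ_[p] p x = 0) : xi0 p ∣ x := by
  choose z y h1 h2 using fun x : {x : AI p // fontaineTheta 𝓞_ℂ_[p] p x = 0} => ker_step x.2
  let u : ℕ → {x : AI p // fontaineTheta 𝓞_ℂ_[p] p x = 0} := fun n =>
    Nat.rec ⟨x, hx⟩ (fun _ v => ⟨y v, h2 v⟩) n
  have hu : ∀ n, (u n).1 = xi0 p * z (u n) + (p : AI p) * (u (n + 1)).1 := fun n => h1 (u n)
  let s : ℕ → AI p := fun n => ∑ i ∈ Finset.range n, (p : AI p) ^ i * z (u i)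
  have hs : ∀ n, x = xi0 p * s n + (p : AI p) ^ n * (u n).1 := by
    intro n
    induction n with
    | zero => simp [s, u]
    | succ n ih =>
      have e : s (n + 1) = s n + (p : AI p) ^ n * z (u n) := Finset.sum_range_succ _ _
      rw [e]
      have h3 := hu n
      calc x = xi0 p * s n + (p : AI p) ^ n * (u n).1 := ih
        _ = _ := by rw [h3]; ring
  have hmem : ∀ n (v : AI p), (p : AI p) ^ n * v ∈ Ideal.span {(p : AI p)} ^ n := by
    intro n v
    rw [Ideal.span_singleton_pow, Ideal.mem_span_singleton]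
    exact dvd_mul_right _ _
  have hcau : ∀ {m n : ℕ}, m ≤ n → s m ≡ s n [SMOD (Ideal.span {(p : AI p)} ^ m • ⊤ : Submodule (AI p) (AI p))] := by
    intro m n hmn
    rw [SModEq.sub_mem, smul_eq_mul, Ideal.mul_top]
    obtain ⟨k, rfl⟩ := Nat.exists_eq_add_of_le hmn
    have e : s m - s (m + k) = -∑ i ∈ Finset.range k, (p : AI p) ^ (m + i) * z (u (m + i)) := by
      simp only [s, Finset.sum_range_add]
      ring
    rw [e]
    refine neg_mem (sum_mem fun i _ => ?_)
    rw [pow_add, mul_assoc]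
    exact hmem m _
  obtain ⟨L, hL⟩ := IsPrecomplete.prec' (I := Ideal.span {(p : AI p)}) (M := AI p) s hcau
  refine ⟨L, ?_⟩
  rw [← sub_eq_zero]
  refine IsHausdorff.haus' (I := Ideal.span {(p : AI p)}) (M := AI p) _ fun n => ?_
  rw [SModEq.sub_mem, sub_zero, smul_eq_mul, Ideal.mul_top]
  have h3 := hL n
  rw [SModEq.sub_mem, smul_eq_mul, Ideal.mul_top] at h3
  have e : x - xi0 p * L = xi0 p * (s n - L) + (p : AI p) ^ n * (u n).1 := by
    have := hs n
    linear_combination this
  rw [e]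
  exact add_mem (Ideal.mul_mem_left _ _ h3) (hmem n _)

end Pool.Agent.N829.HT
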