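import Mathlib
import Pool.Agent.W292.FM.Cyclo

/-!
The cyclotomic tower over `ℚ_[p]`: a compatible system of roots of unity, the layers, and the
cyclotomic character.
-/

set_option autoImplicit false
set_option linter.unusedSectionVars false

namespace Pool.Agent.N829.HT

open Pool.Agent.W292.FM Polynomial IntermediateField

variable (p : ℕ) [hp : Fact p.Prime]

/-- the absolute Galois group of `ℚ_p` -/
abbrev GG : Type := Gal(PadicAlgCl p/ℚ_[p])

/-- the `p`-adic cyclotomic character of the absolute Galois group of `ℚ_p` -/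
noncomputable def chi : GG p →* ℤ_[p]ˣ :=
  (cyclotomicCharacter (PadicAlgCl p) p).comp
    (MulSemiringAction.toRingAut (GG p) (PadicAlgCl p))

variable {p}

theorem chi_spec (g : GG p) {n : ℕ} {t : PadicAlgCl p} (ht : t ^ p ^ n = 1) :
    g t = t ^ (((chi p g : ℤ_[p]ˣ) : ℤ_[p]).toZModPow n).val :=
  cyclotomicCharacter.spec (L := PadicAlgCl p) p
    (MulSemiringAction.toRingAut (GG p) (PadicAlgCl p) g) t ht

variable (p) in
theorem exists_zseq : ∃ z : ℕ → PadicAlgCl p, z 0 = 1 ∧ (∀ n, z (n + 1) ^ p = z n) ∧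
    ∀ n, IsPrimitiveRoot (z n) (p ^ n) := by
  have hp1 : p.Prime := hp.out
  have step : ∀ (n : ℕ) (x : PadicAlgCl p), IsPrimitiveRoot x (p ^ (n + 1)) →
      ∃ y : PadicAlgCl p, y ^ p = x ∧ IsPrimitiveRoot y (p ^ (n + 2)) := by
    intro n x hx
    obtain ⟨y, hy⟩ := IsAlgClosed.exists_pow_nat_eq x hp1.pos
    refine ⟨y, hy, ?_⟩
    have h1 : ¬ y ^ p ^ (n + 1) = 1 := by
      rw [pow_succ', pow_mul, hy]
      intro h
      have := (hx.pow_eq_one_iff_dvd _).1 h
      have h2 := Nat.le_of_dvd (pow_pos hp1.pos n) this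
      have h3 : p ^ n < p ^ (n + 1) := Nat.pow_lt_pow_right hp1.one_lt (Nat.lt_succ_self n)
      omega
    have h2 : y ^ p ^ (n + 1 + 1) = 1 := by
      rw [pow_succ', pow_mul, hy, hx.pow_eq_one]
    have h3 := orderOf_eq_prime_pow h1 h2
    rw [← h3]
    exact IsPrimitiveRoot.orderOf y
  obtain ⟨z1, hz1⟩ := HasEnoughRootsOfUnity.exists_primitiveRoot (PadicAlgCl p) (p ^ 1)
  let u : ∀ n : ℕ, {x : PadicAlgCl p // IsPrimitiveRoot x (p ^ (n + 1))} := fun n =>
    Nat.rec ⟨z1, by simpa using hz1⟩ (fun n x => ⟨(step n x.1 x.2).choose,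
      (step n x.1 x.2).choose_spec.2⟩) n
  have hu : ∀ n, (u (n + 1)).1 ^ p = (u n).1 := fun n => (step n (u n).1 (u n).2).choose_spec.1
  refine ⟨fun n => Nat.casesOn n 1 fun n => (u n).1, rfl, ?_, ?_⟩
  · intro n
    rcases n with _ | n
    · have h0 : z1 ^ p ^ 1 = 1 := hz1.pow_eq_one
      rw [pow_one] at h0
      exact h0
    · exact hu n
  · intro n
    rcases n with _ | n
    · rw [pow_zero]; exact IsPrimitiveRoot.one
    · exact (u n).2

variable (p) in
/-- a compatible sequence of primitive `p ^ n`-th roots of unity -/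
noncomputable def zt : ℕ → PadicAlgCl p := (exists_zseq p).choose

theorem zt_zero : zt p 0 = 1 := (exists_zseq p).choose_spec.1

theorem zt_succ (n : ℕ) : zt p (n + 1) ^ p = zt p n := (exists_zseq p).choose_spec.2.1 n

theorem zt_prim (n : ℕ) : IsPrimitiveRoot (zt p n) (p ^ n) := (exists_zseq p).choose_spec.2.2 n

theorem zt_pow (n k : ℕ) : zt p (n + k) ^ p ^ k = zt p n := by
  induction k with
  | zero => simp
  | succ k ih => rw [← add_assoc, pow_succ', pow_mul, zt_succ, ih]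

variable (p) in
/-- the layer `ℚ_p(ζ_{p^n})` -/
noncomputable def Kn (n : ℕ) : IntermediateField ℚ_[p] (PadicAlgCl p) := ℚ_[p]⟮zt p n⟯

theorem zt_mem (n : ℕ) : zt p n ∈ Kn p n := mem_adjoin_simple_self _ _

theorem zt_mem' {m n : ℕ} (h : m ≤ n) : zt p m ∈ Kn p n := by
  obtain ⟨k, rfl⟩ := Nat.exists_eq_add_of_le h
  rw [← zt_pow m k]
  exact pow_mem (zt_mem _) _

theorem Kn_mono {m n : ℕ} (h : m ≤ n) : Kn p m ≤ Kn p n := by
  rw [Kn, adjoin_simple_le_iff]
  exact zt_mem' h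

theorem gal_zt (g : GG p) (n : ℕ) :
    g (zt p n) = zt p n ^ (((chi p g : ℤ_[p]ˣ) : ℤ_[p]).toZModPow n).val :=
  chi_spec g (zt_prim n).pow_eq_one

theorem gal_mem_Kn (g : GG p) {n : ℕ} {x : PadicAlgCl p} (hx : x ∈ Kn p n) : g x ∈ Kn p n := by
  have h : (Kn p n).map (g : PadicAlgCl p →ₐ[ℚ_[p]] PadicAlgCl p) ≤ Kn p n := by
    rw [Kn, adjoin_map, adjoin_le_iff, Set.image_singleton, Set.singleton_subset_iff]
    change g (zt p n) ∈ _
    rw [gal_zt]
    exact pow_mem (zt_mem n) _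
  exact h ⟨x, hx, rfl⟩

/-- The action of the Galois group on the cyclotomic layers is commutative. -/
theorem gal_comm (g h : GG p) {n : ℕ} {x : PadicAlgCl p} (hx : x ∈ Kn p n) :
    g (h x) = h (g x) := by
  have key : ((g * h : GG p) : PadicAlgCl p →ₐ[ℚ_[p]] PadicAlgCl p).comp (Kn p n).val =
      ((h * g : GG p) : PadicAlgCl p →ₐ[ℚ_[p]] PadicAlgCl p).comp (Kn p n).val := by
    refine IntermediateField.algHom_ext_of_eq_adjoin _ (s := {zt p n}) rfl ?_
    intro y hy
    rw [Set.mem_singleton_iff] at hy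
    subst hy
    change g (h (zt p n)) = h (g (zt p n))
    rw [gal_zt g, gal_zt h, map_pow, map_pow, gal_zt g, gal_zt h, ← pow_mul, ← pow_mul, mul_comm]
  exact congrArg (fun f : Kn p n →ₐ[ℚ_[p]] PadicAlgCl p => f ⟨x, hx⟩) key

theorem gal_fix {g : GG p} {n : ℕ} (hg : g (zt p n) = zt p n) {x : PadicAlgCl p}
    (hx : x ∈ Kn p n) : g x = x := by
  have key : (g : PadicAlgCl p →ₐ[ℚ_[p]] PadicAlgCl p).comp (Kn p n).val = (Kn p n).val := by
    refine IntermediateField.algHom_ext_of_eq_adjoin _ (s := {zt p n}) rfl ?_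
    intro y hy
    rw [Set.mem_singleton_iff] at hy
    subst hy
    exact hg
  exact congrArg (fun f : Kn p n →ₐ[ℚ_[p]] PadicAlgCl p => f ⟨x, hx⟩) key

theorem gal_zt_eq_iff (g : GG p) (n : ℕ) : g (zt p n) = zt p n ↔
    ((chi p g : ℤ_[p]ˣ) : ℤ_[p]).toZModPow n = 1 := by
  have hn : NeZero (p ^ n) := ⟨pow_ne_zero _ hp.out.ne_zero⟩
  rw [gal_zt]
  constructor
  · intro h
    rcases Nat.eq_zero_or_pos n with rfl | hn0
    · have : Subsingleton (ZMod (p ^ 0)) := by rw [pow_zero]; infer_instance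
      exact Subsingleton.elim _ _
    have h1 : 1 < p ^ n := Nat.one_lt_pow hn0.ne' hp.out.one_lt
    have h2 := (zt_prim (p := p) n).pow_inj (ZMod.val_lt _) h1 (by rw [h, pow_one])
    have : Fact (1 < p ^ n) := ⟨h1⟩
    apply ZMod.val_injective
    rw [h2, ZMod.val_one]
  · intro h
    rw [h]
    rcases Nat.eq_zero_or_pos n with rfl | hn0
    · rw [zt_zero, one_pow]
    have h1 : 1 < p ^ n := Nat.one_lt_pow hn0.ne' hp.out.one_lt
    have : Fact (1 < p ^ n) := ⟨h1⟩
    rw [ZMod.val_one, pow_one]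

theorem chi_eq_one {g : GG p} (h : ∀ n, g (zt p n) = zt p n) : chi p g = 1 := by
  apply Units.ext
  rw [Units.val_one]
  refine PadicInt.ext_of_toZModPow.1 fun n => ?_
  rw [(gal_zt_eq_iff g n).1 (h n), map_one]

end Pool.Agent.N829.HT
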