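import Mathlib
import Pool.Agent.N829.HT.Tate1

/-!
Expansions in the cyclotomic layers and the normalised trace.
-/

set_option autoImplicit false
set_option linter.unusedSectionVars false

namespace Pool.Agent.N829.HT

open Pool.Agent.W292.FM Polynomial IntermediateField

variable {p : ℕ} [hp : Fact p.Prime]

/-- Elements of the layer as polynomials in `ζ - 1` of small degree. -/
theorem expand {n : ℕ} {x : PadicAlgCl p} (hx : x ∈ Kn p (n + 1)) :
    ∃ q : ℚ_[p][X], q.natDegree < Nat.totient (p ^ (n + 1)) ∧ x = aeval (zt p (n + 1) - 1) q := by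
  have hφ : 0 < Nat.totient (p ^ (n + 1)) := Nat.totient_pos.2 (pow_pos hp.out.pos _)
  have h1 : x ∈ (Kn p (n + 1)).toSubalgebra := hx
  rw [Kn, adjoin_simple_toSubalgebra_of_isAlgebraic (Algebra.IsAlgebraic.isAlgebraic _),
    Algebra.adjoin_singleton_eq_range_aeval] at h1
  obtain ⟨q, hq⟩ := h1
  set P : ℚ_[p][X] := (cyclotomic (p ^ (n + 1)) ℚ_[p]).comp (X + C 1) with hP
  have hPm : P.Monic := (cyclotomic.monic _ _).comp_X_add_C 1
  have hPd : P.natDegree = Nat.totient (p ^ (n + 1)) := by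
    rw [hP, natDegree_comp, natDegree_X_add_C, mul_one, natDegree_cyclotomic]
  have hP0 : aeval (zt p (n + 1) - 1) P = 0 := by
    rw [hP, aeval_comp]
    have : aeval (zt p (n + 1) - 1) (X + C 1 : ℚ_[p][X]) = zt p (n + 1) := by
      simp
    rw [this]
    have h2 := (zt_prim (p := p) (n + 1)).isRoot_cyclotomic (pow_pos hp.out.pos _)
    rw [IsRoot, ← map_cyclotomic (p ^ (n + 1)) (algebraMap ℚ_[p] (PadicAlgCl p)),
      eval_map_algebraMap] at h2
    exact h2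
  refine ⟨(q.comp (X + C 1)) %ₘ P, ?_, ?_⟩
  · rw [← hPd]
    refine natDegree_modByMonic_lt _ hPm ?_
    intro h
    have : P.natDegree = 0 := by rw [h, natDegree_one]
    omega
  · rw [aeval_modByMonic_eq_self_of_root hP0, aeval_comp]
    have : aeval (zt p (n + 1) - 1) (X + C 1 : ℚ_[p][X]) = zt p (n + 1) := by
      simp
    rw [this]
    exact hq.symm

theorem norm_coeff_le {n : ℕ} {q : ℚ_[p][X]} (hq : q.natDegree < Nat.totient (p ^ (n + 1)))
    {i : ℕ} (hi : i < Nat.totient (p ^ (n + 1))) :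
    ‖q.coeff i‖ * ‖zt p (n + 1) - 1‖ ^ i ≤ ‖aeval (zt p (n + 1) - 1) q‖ := by
  have h := norm_term_le (zt_prim (p := p) (n + 1)) (fun j => q.coeff j) hi
  rw [norm_mul, norm_pow] at h
  have h1 : ‖algebraMap ℚ_[p] (PadicAlgCl p) (q.coeff i)‖ = ‖q.coeff i‖ :=
    PadicAlgCl.norm_extends p _
  rw [h1] at h
  rw [aeval_eq_sum_range' hq]
  refine h.trans (le_of_eq ?_)
  congr 1
  refine Finset.sum_congr rfl fun j _ => ?_
  rw [Algebra.smul_def]

theorem norm_pi_lt_one (n : ℕ) : ‖zt p (n + 1) - 1‖ < 1 := by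
  have h := norm_sub_one_pow_totient (zt_prim (p := p) (n + 1))
  by_contra hcon
  push Not at hcon
  have h2 : 1 ≤ ‖zt p (n + 1) - 1‖ ^ (Nat.totient (p ^ (n + 1))) := one_le_pow₀ hcon
  rw [h] at h2
  have h3 : (p : ℝ)⁻¹ < 1 := inv_lt_one_of_one_lt₀ (one_lt_p p)
  linarith

theorem norm_pi_pos (n : ℕ) : 0 < ‖zt p (n + 1) - 1‖ := by
  have h := norm_sub_one_pow_totient (zt_prim (p := p) (n + 1))
  rcases (norm_nonneg (zt p (n + 1) - 1)).lt_or_eq with h1 | h1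
  · exact h1
  · exfalso
    rw [← h1, zero_pow (Nat.totient_pos.2 (pow_pos hp.out.pos _)).ne'] at h
    have : (0 : ℝ) < (p : ℝ)⁻¹ := inv_pos.2 (by exact_mod_cast hp.out.pos)
    linarith

/-- Integral elements of the layer are polynomials in `ζ` with integral coefficients. -/
theorem integral_expand {n : ℕ} {x : PadicAlgCl p} (hx : x ∈ Kn p (n + 1)) (h1 : ‖x‖ ≤ 1) :
    ∃ q : ℤ_[p][X], x = aeval (zt p (n + 1)) (q.map (algebraMap ℤ_[p] ℚ_[p])) := by
  obtain ⟨q, hq, rfl⟩ := expand hx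
  set e := Nat.totient (p ^ (n + 1)) with he
  have hc : ∀ i, ‖q.coeff i‖ ≤ 1 := by
    intro i
    rcases lt_or_ge i e with hi | hi
    · have h2 := (norm_coeff_le hq hi).trans h1
      have h3 := Padic.norm_le_pow_iff_norm_lt_pow_add_one (q.coeff i) 0
      rw [zpow_zero, zero_add, zpow_one] at h3
      rw [h3]
      have h4 := norm_sub_one_pow_totient (zt_prim (p := p) (n + 1))
      rw [← he] at h4
      have hpos := norm_pi_pos (p := p) n
      have hlt := norm_pi_lt_one (p := p) n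
      have h5 : ‖zt p (n + 1) - 1‖ ^ e < ‖zt p (n + 1) - 1‖ ^ i :=
        pow_lt_pow_right_of_lt_one₀ hpos hlt hi
      rw [h4] at h5
      have hp0 : (0 : ℝ) < p := by exact_mod_cast hp.out.pos
      by_contra hcon
      push Not at hcon
      have h6 : (p : ℝ) * (p : ℝ)⁻¹ < ‖q.coeff i‖ * ‖zt p (n + 1) - 1‖ ^ i :=
        mul_lt_mul' hcon h5 (by positivity) (lt_of_lt_of_le hp0 hcon)
      rw [mul_inv_cancel₀ hp0.ne'] at h6
      linarith
    · rw [coeff_eq_zero_of_natDegree_lt (lt_of_lt_of_le hq hi), norm_zero]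
      exact zero_le_one
  have hl : ∀ i, ∃ a : ℤ_[p], algebraMap ℤ_[p] ℚ_[p] a = q.coeff i := fun i =>
    ⟨⟨q.coeff i, hc i⟩, rfl⟩
  obtain ⟨r, hr⟩ : ∃ r : ℤ_[p][X], r.map (algebraMap ℤ_[p] ℚ_[p]) = q := by
    rw [← mem_lifts, lifts_iff_coeff_lifts]
    intro i
    exact hl i
  refine ⟨r.comp (X - C 1), ?_⟩
  rw [map_comp, hr, aeval_comp]
  congr 1
  simp

/-- The absolute values of the layer. -/
theorem norm_pow_mem {n : ℕ} {x : PadicAlgCl p} (hx : x ∈ Kn p (n + 1)) (h0 : x ≠ 0) :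
    ∃ k : ℤ, ‖x‖ ^ Nat.totient (p ^ (n + 1)) = (p : ℝ) ^ k := by
  obtain ⟨q, hq, rfl⟩ := expand hx
  set e := Nat.totient (p ^ (n + 1)) with he
  have hpos := norm_pi_pos (p := p) n
  have h4 := norm_sub_one_pow_totient (zt_prim (p := p) (n + 1))
  rw [← he] at h4
  have hp0 : (0 : ℝ) < p := by exact_mod_cast hp.out.pos
  -- a term of maximal absolute value
  obtain ⟨i, hi, hmax⟩ := (Finset.range e).exists_max_image
    (fun i => ‖algebraMap ℚ_[p] (PadicAlgCl p) (q.coeff i) * (zt p (n + 1) - 1) ^ i‖)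
    ⟨0, Finset.mem_range.2 (Nat.totient_pos.2 (pow_pos hp.out.pos _))⟩
  have hle : ‖aeval (zt p (n + 1) - 1) q‖ ≤
      ‖algebraMap ℚ_[p] (PadicAlgCl p) (q.coeff i) * (zt p (n + 1) - 1) ^ i‖ := by
    rw [aeval_eq_sum_range' hq]
    refine IsUltrametricDist.norm_sum_le_of_forall_le_of_nonneg (norm_nonneg _) fun j hj => ?_
    rw [Algebra.smul_def]
    exact hmax j hj
  have hge := norm_coeff_le hq (Finset.mem_range.1 hi)
  have h1 : ‖algebraMap ℚ_[p] (PadicAlgCl p) (q.coeff i)‖ = ‖q.coeff i‖ :=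
    PadicAlgCl.norm_extends p _
  rw [norm_mul, norm_pow, h1] at hle
  have heq := le_antisymm hle hge
  have hci : q.coeff i ≠ 0 := by
    intro h2
    rw [h2, norm_zero, zero_mul, norm_eq_zero] at heq
    exact h0 heq
  refine ⟨-(q.coeff i).valuation * e - i, ?_⟩
  rw [heq, mul_pow, ← pow_mul, mul_comm i e, pow_mul, h4, Padic.norm_eq_zpow_neg_valuation hci,
    ← zpow_natCast, ← zpow_natCast, ← zpow_mul, inv_zpow', ← zpow_add₀ hp0.ne']
  congr 1

theorem zt_notMem (m : ℕ) : zt p (m + 2) ∉ Kn p (m + 1) := by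
  intro h
  have h1 : zt p (m + 2) - 1 ∈ Kn p (m + 1) := sub_mem h (one_mem _)
  have hpos := norm_pi_pos (p := p) (m + 1)
  obtain ⟨k, hk⟩ := norm_pow_mem h1 (norm_pos_iff.1 hpos)
  have h4 := norm_sub_one_pow_totient (zt_prim (p := p) (m + 1 + 1))
  have hφ : Nat.totient (p ^ (m + 1 + 1)) = Nat.totient (p ^ (m + 1)) * p := by
    rw [Nat.totient_prime_pow_succ hp.out, Nat.totient_prime_pow_succ hp.out, pow_succ]
    ring
  have hp1 := one_lt_p p
  have hp0 : (0 : ℝ) < p := by linarith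
  rw [hφ, pow_mul] at h4
  have h5 : (zt p (m + 1 + 1) : PadicAlgCl p) = zt p (m + 2) := rfl
  rw [h5, hk, ← zpow_natCast, ← zpow_mul, ← zpow_neg_one] at h4
  have h6 := zpow_right_injective₀ hp0 hp1.ne' h4
  have h7 : (p : ℤ) ∣ 1 := ⟨-k, by linarith⟩
  have h8 : (p : ℤ) ≤ 1 := Int.le_of_dvd one_pos h7
  have h9 := hp.out.one_lt
  omega

/-- an automorphism which fixes `ζ_{p^{m+1}}` and moves `ζ_{p^{m+2}}` -/
theorem exists_move (m : ℕ) : ∃ h : GG p, h (zt p (m + 1)) = zt p (m + 1) ∧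
    h (zt p (m + 2)) ≠ zt p (m + 2) := by
  by_contra hcon
  push Not at hcon
  apply zt_notMem (p := p) m
  rw [← InfiniteGalois.fixedField_fixingSubgroup (Kn p (m + 1))]
  rw [IntermediateField.mem_fixedField_iff]
  intro g hg
  exact hcon g (hg ⟨_, zt_mem _⟩)

/-- the average over the powers of `h` -/
noncomputable def avg (h : GG p) : PadicAlgCl p →ₗ[ℚ_[p]] PadicAlgCl p :=
  ((p : ℚ_[p])⁻¹) • ∑ t ∈ Finset.range p, ((h ^ t : GG p) : PadicAlgCl p →ₐ[ℚ_[p]] PadicAlgCl p).toLinearMap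

theorem avg_apply (h : GG p) (x : PadicAlgCl p) :
    avg h x = ((p : ℚ_[p])⁻¹) • ∑ t ∈ Finset.range p, (h ^ t : GG p) x := by
  simp [avg]

theorem avg_fix {h : GG p} {x : PadicAlgCl p} (hx : h x = x) : avg h x = x := by
  have h1 : ∀ t : ℕ, (h ^ t : GG p) x = x := by
    intro t
    induction t with
    | zero => rfl
    | succ t ih => rw [pow_succ]; change (h ^ t : GG p) (h x) = x; rw [hx, ih]
  rw [avg_apply, Finset.sum_congr rfl (fun t _ => h1 t), Finset.sum_const, Finset.card_range,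
    ← Nat.cast_smul_eq_nsmul ℚ_[p], smul_smul, inv_mul_cancel₀
      (Nat.cast_ne_zero.2 hp.out.ne_zero), one_smul]

theorem avg_zt_pow {m : ℕ} {h : GG p} (h1 : h (zt p (m + 1)) = zt p (m + 1))
    (h2 : h (zt p (m + 2)) ≠ zt p (m + 2)) (i : ℕ) :
    avg h (zt p (m + 2) ^ i) = if p ∣ i then zt p (m + 2) ^ i else 0 := by
  set z := zt p (m + 2) with hz
  have hz0 : z ≠ 0 := (zt_prim (p := p) (m + 2)).ne_zero (pow_ne_zero _ hp.out.ne_zero)
  have hzp : z ^ p = zt p (m + 1) := zt_succ (m + 1)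
  set w := h z / z with hw
  have hwp : w ^ p = 1 := by
    rw [hw, div_pow, ← map_pow, hzp, h1, div_self]
    rw [← hzp]
    exact pow_ne_zero _ hz0
  have hw1 : w ≠ 1 := by
    intro h3
    rw [hw, div_eq_one_iff_eq hz0] at h3
    exact h2 h3
  have hhw : h w = w := by
    have h3 : w ^ p ^ 1 = 1 := by rw [pow_one]; exact hwp
    have : NeZero (p ^ 1) := ⟨pow_ne_zero _ hp.out.ne_zero⟩
    obtain ⟨k, -, hk⟩ := (zt_prim (p := p) 1).eq_pow_of_pow_eq_one h3
    have h4 : h (zt p 1) = zt p 1 := gal_fix h1 (zt_mem' (by omega))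
    rw [← hk, map_pow, h4]
  have hhz : h z = w * z := by rw [hw, div_mul_cancel₀ _ hz0]
  have ht : ∀ t : ℕ, (h ^ t : GG p) z = w ^ t * z := by
    intro t
    induction t with
    | zero => simp
    | succ t ih =>
      rw [pow_succ']
      change h ((h ^ t : GG p) z) = _
      rw [ih, map_mul, map_pow, hhw, hhz, pow_succ]
      ring
  have ht' : ∀ t : ℕ, (h ^ t : GG p) (z ^ i) = (w ^ i) ^ t * z ^ i := by
    intro t
    rw [map_pow, ht, mul_pow]
    ring
  rw [avg_apply, Finset.sum_congr rfl (fun t _ => ht' t), ← Finset.sum_mul]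
  have hwprim : IsPrimitiveRoot w p := by
    exact IsPrimitiveRoot.iff_orderOf.2 (orderOf_eq_prime hwp hw1)
  split_ifs with hi
  · have h5 : w ^ i = 1 := (hwprim.pow_eq_one_iff_dvd i).2 hi
    rw [h5]
    simp only [one_pow, Finset.sum_const, Finset.card_range, nsmul_eq_mul, mul_one]
    rw [Algebra.smul_def, map_inv₀, map_natCast, ← mul_assoc, inv_mul_cancel₀
      (Nat.cast_ne_zero.2 hp.out.ne_zero), one_mul]
  · have h5 : w ^ i ≠ 1 := fun h6 => hi ((hwprim.pow_eq_one_iff_dvd i).1 h6)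
    have h6 : (∑ t ∈ Finset.range p, (w ^ i) ^ t) * (w ^ i - 1) = 0 := by
      rw [geom_sum_mul, ← pow_mul, mul_comm i p, pow_mul, hwp, one_pow, sub_self]
    rw [(mul_eq_zero.1 h6).resolve_right (sub_ne_zero.2 h5), zero_mul, smul_zero]

theorem avg_mem {m : ℕ} {h : GG p} (h1 : h (zt p (m + 1)) = zt p (m + 1))
    (h2 : h (zt p (m + 2)) ≠ zt p (m + 2)) {x : PadicAlgCl p} (hx : x ∈ Kn p (m + 2)) :
    avg h x ∈ Kn p (m + 1) := by
  have h3 : x ∈ (Kn p (m + 2)).toSubalgebra := hx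
  rw [Kn, adjoin_simple_toSubalgebra_of_isAlgebraic (Algebra.IsAlgebraic.isAlgebraic _),
    Algebra.adjoin_singleton_eq_range_aeval] at h3
  obtain ⟨q, rfl⟩ := h3
  change avg h (aeval (zt p (m + 2)) q) ∈ _
  rw [aeval_eq_sum_range, map_sum]
  refine sum_mem fun i _ => ?_
  rw [map_smul, avg_zt_pow h1 h2]
  refine (Kn p (m + 1)).smul_mem ?_
  split_ifs with hi
  · obtain ⟨k, rfl⟩ := hi
    rw [pow_mul]
    have : zt p (m + 2) ^ p = zt p (m + 1) := zt_succ (m + 1)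
    rw [this]
    exact pow_mem (zt_mem _) _
  · exact zero_mem _

theorem avg_norm {m : ℕ} {h : GG p} (h1 : h (zt p (m + 1)) = zt p (m + 1))
    (h2 : h (zt p (m + 2)) ≠ zt p (m + 2)) {x : PadicAlgCl p} (hx : x ∈ Kn p (m + 2))
    (hx1 : ‖x‖ ≤ 1) : ‖avg h x‖ ≤ 1 := by
  obtain ⟨q, rfl⟩ := integral_expand hx hx1
  have hz1 : ‖zt p (m + 2)‖ = 1 := norm_rootOfUnity (pow_ne_zero _ hp.out.ne_zero)
    (zt_prim (p := p) (m + 2)).pow_eq_one
  change ‖avg h (aeval (zt p (m + 2)) _)‖ ≤ 1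
  rw [aeval_eq_sum_range, map_sum]
  refine IsUltrametricDist.norm_sum_le_of_forall_le_of_nonneg zero_le_one fun i _ => ?_
  rw [map_smul, avg_zt_pow h1 h2, coeff_map, norm_smul]
  have h3 : ‖algebraMap ℤ_[p] ℚ_[p] (q.coeff i)‖ ≤ 1 := (q.coeff i).2
  refine mul_le_one₀ h3 (norm_nonneg _) ?_
  split_ifs with hi
  · rw [norm_pow, hz1, one_pow]
  · rw [norm_zero]; exact zero_le_one

theorem avg_comm {m : ℕ} (h g : GG p) {x : PadicAlgCl p} (hx : x ∈ Kn p m) :
    avg h (g x) = g (avg h x) := by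
  rw [avg_apply, avg_apply, Algebra.smul_def, Algebra.smul_def, map_mul, AlgEquiv.commutes, map_sum]
  congr 1
  refine Finset.sum_congr rfl fun t _ => ?_
  exact gal_comm _ _ hx

/-- The normalised trace from the layer `n + 1 + k` to the layer `n + 1`. -/
theorem exists_trace (n k : ℕ) : ∃ R : PadicAlgCl p →ₗ[ℚ_[p]] PadicAlgCl p,
    (∀ x ∈ Kn p (n + 1), R x = x) ∧ (∀ x ∈ Kn p (n + 1 + k), R x ∈ Kn p (n + 1)) ∧
    (∀ x ∈ Kn p (n + 1 + k), ‖x‖ ≤ 1 → ‖R x‖ ≤ 1) ∧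
    ∀ (g : GG p), ∀ x ∈ Kn p (n + 1 + k), R (g x) = g (R x) := by
  induction k with
  | zero =>
    exact ⟨LinearMap.id, fun x _ => rfl, fun x hx => hx, fun x _ h => h, fun g x _ => rfl⟩
  | succ k ih =>
    obtain ⟨R, hR1, hR2, hR3, hR4⟩ := ih
    obtain ⟨h, h1, h2⟩ := exists_move (p := p) (n + k)
    have e1 : n + k + 1 = n + 1 + k := by omega
    have e2 : n + k + 2 = n + 1 + (k + 1) := by omega
    rw [e1] at h1
    rw [e2] at h2
    have h1' : h (zt p (n + k + 1)) = zt p (n + k + 1) := by rw [e1]; exact h1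
    have h2' : h (zt p (n + k + 2)) ≠ zt p (n + k + 2) := by rw [e2]; exact h2
    have m1 : ∀ x ∈ Kn p (n + 1 + (k + 1)), avg h x ∈ Kn p (n + 1 + k) := by
      intro x hx
      rw [← e2] at hx
      rw [← e1]
      exact avg_mem h1' h2' hx
    refine ⟨R.comp (avg h), ?_, ?_, ?_, ?_⟩
    · intro x hx
      rw [LinearMap.comp_apply, avg_fix, hR1 x hx]
      exact gal_fix h1 (Kn_mono (by omega) hx)
    · intro x hx
      exact hR2 _ (m1 x hx)
    · intro x hx hx1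
      refine hR3 _ (m1 x hx) ?_
      rw [← e2] at hx
      exact avg_norm h1' h2' hx hx1
    · intro g x hx
      rw [LinearMap.comp_apply, LinearMap.comp_apply, avg_comm h g hx, hR4 g _ (m1 x hx)]

theorem trace_bound {n k : ℕ} {R : PadicAlgCl p →ₗ[ℚ_[p]] PadicAlgCl p}
    (hR : ∀ x ∈ Kn p (n + 1 + k), ‖x‖ ≤ 1 → ‖R x‖ ≤ 1) {x : PadicAlgCl p}
    (hx : x ∈ Kn p (n + 1 + k)) : ‖R x‖ ≤ p * ‖x‖ := by
  rcases eq_or_ne x 0 with rfl | h0
  · simp
  have hp1 := one_lt_p p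
  have hp0 : (0 : ℝ) < p := by linarith
  obtain ⟨j, hj1, hj2⟩ := exists_mem_Ioc_zpow (norm_pos_iff.2 h0) hp1
  have hnp : ‖((p : ℚ_[p]) ^ (j + 1))‖ = ((p : ℝ) ^ (j + 1))⁻¹ := by
    rw [norm_zpow, Padic.norm_p, inv_zpow]
  have h1 : ‖((p : ℚ_[p]) ^ (j + 1)) • x‖ ≤ 1 := by
    rw [norm_smul, hnp]
    rw [inv_mul_le_iff₀ (zpow_pos hp0 _), mul_one]
    exact hj2
  have h2 := hR _ ((Kn p (n + 1 + k)).smul_mem hx) h1
  rw [map_smul, norm_smul, hnp, inv_mul_le_iff₀ (zpow_pos hp0 _), mul_one] at h2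
  refine h2.trans ?_
  rw [zpow_add_one₀ hp0.ne', mul_comm]
  exact mul_le_mul_of_nonneg_left hj1.le hp0.le

end Pool.Agent.N829.HT
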