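import Mathlib
import Pool.Agent.N829.HT.Tate2

/-!
Tate's theorem: the twists `ℂ_p(j)`, `j ≠ 0`, have no invariants under any closed subgroup of finite
index of the absolute Galois group of `ℚ_p`.
-/

set_option autoImplicit false
set_option linter.unusedSectionVars false

namespace Pool.Agent.N829.HT

open Pool.Agent.W292.FM Polynomial IntermediateField

variable {p : ℕ} [hp : Fact p.Prime]

/-- the cyclotomic character with values in `ℚ_p` -/
noncomputable def chiQ (g : GG p) : ℚ_[p] := (((chi p g : ℤ_[p]ˣ) : ℤ_[p]) : ℚ_[p])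

theorem chiQ_mul (g h : GG p) : chiQ (g * h) = chiQ g * chiQ h := by
  simp [chiQ]

theorem norm_chiQ (g : GG p) : ‖chiQ g‖ = 1 := by
  unfold chiQ
  rw [PadicInt.padic_norm_e_of_padicInt]
  exact PadicInt.norm_units _

theorem chiQ_ne_zero (g : GG p) : chiQ g ≠ 0 := by
  rw [← norm_pos_iff, norm_chiQ]
  exact one_pos

theorem chiQ_eq {g h : GG p} (e : chiQ g = chiQ h) : chi p g = chi p h :=
  Units.ext (Subtype.ext e)

theorem exists_pow_ne_one (m : ℕ) {j : ℤ} (hj : j ≠ 0) :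
    ∃ g : GG p, g (zt p (m + 1)) = zt p (m + 1) ∧ chiQ g ^ j ≠ 1 := by
  classical
  by_contra hcon
  push Not at hcon
  choose g hg1 hg2 using fun k : ℕ => exists_move (p := p) (m + k)
  have hinj : Function.Injective fun k => chiQ (g k) := by
    have key : ∀ k k' : ℕ, k < k' → chiQ (g k) ≠ chiQ (g k') := by
      intro k k' hk h
      apply hg2 k
      rw [gal_zt_eq_iff, chiQ_eq h, ← gal_zt_eq_iff]
      exact gal_fix (hg1 k') (zt_mem' (by omega))
    intro k k' h
    rcases lt_trichotomy k k' with h1 | h1 | h1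
    · exact absurd h (key k k' h1)
    · exact h1
    · exact absurd h.symm (key k' k h1)
  have hfin : (Set.range fun k => chiQ (g k)).Finite := by
    refine (nthRoots j.natAbs (1 : ℚ_[p])).toFinset.finite_toSet.subset ?_
    rintro _ ⟨k, rfl⟩
    have h1 : g k (zt p (m + 1)) = zt p (m + 1) := gal_fix (hg1 k) (zt_mem' (by omega))
    have h2 := hcon (g k) h1
    have h3 : chiQ (g k) ^ j.natAbs = 1 := by
      rcases Int.natAbs_eq j with h4 | h4
      · rw [h4, zpow_natCast] at h2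
        exact h2
      · rw [h4, zpow_neg, zpow_natCast, inv_eq_one] at h2
        exact h2
    rw [Finset.mem_coe, Multiset.mem_toFinset, mem_nthRoots (Int.natAbs_pos.2 hj)]
    exact h3
  exact Set.infinite_range_of_injective hinj hfin

theorem mem_iSup_Kn {x : PadicAlgCl p} (hx : x ∈ (⨆ n, Kn p n : IntermediateField ℚ_[p] (PadicAlgCl p))) :
    ∃ n, x ∈ Kn p (n + 1) := by
  have hdir : Directed (· ≤ ·) (Kn p) := (monotone_nat_of_le_succ fun n => Kn_mono (by omega)).directed_le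
  rw [← SetLike.mem_coe, coe_iSup_of_directed hdir, Set.mem_iUnion] at hx
  obtain ⟨n, hn⟩ := hx
  exact ⟨n, Kn_mono (by omega) hn⟩

/-- An element of `ℂ_p` which is fixed by all automorphisms with trivial cyclotomic character is a
limit of elements of the cyclotomic layers. -/
theorem exists_approx {c : ℂ_[p]} (hc : ∀ g : GG p, chi p g = 1 → cpMap p g c = c) {η : ℝ}
    (hη : 0 < η) : ∃ (m : ℕ), ∃ β ∈ Kn p (m + 1), ‖c - (β : PadicAlgCl p)‖ ≤ η := by
  have hp0 : (0 : ℝ) < p := by exact_mod_cast hp.out.pos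
  have hε : 0 < η / (p : ℝ) ^ 2 := by positivity
  obtain ⟨α, hα⟩ := (UniformSpace.Completion.denseRange_coe (α := PadicAlgCl p)).exists_dist_lt c hε
  rw [dist_eq_norm] at hα
  have hσ : ∀ σ : GG p, (∀ x ∈ (⨆ n, Kn p n : IntermediateField ℚ_[p] (PadicAlgCl p)), σ x = x) →
      ‖σ α - α‖ ≤ η / (p : ℝ) ^ 2 := by
    intro σ hσ
    have h1 : chi p σ = 1 := chi_eq_one fun n => hσ _ (le_iSup (Kn p) n (zt_mem n))
    have h2 := hc σ h1
    rw [← PadicComplex.norm_extends]
    have e : ((σ α - α : PadicAlgCl p) : ℂ_[p]) =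
        cpMap p σ ((α : ℂ_[p]) - c) + (c - (α : ℂ_[p])) := by
      rw [map_sub, h2, cpMap_coe]
      push_cast
      ring
    rw [e]
    refine (IsUltrametricDist.norm_add_le_max _ _).trans (max_le ?_ hα.le)
    rw [norm_cpMap, norm_sub_rev]
    exact hα.le
  obtain ⟨a, ha1, ha2⟩ := ax p (⨆ n, Kn p n) α (η / (p : ℝ) ^ 2) hε.le hσ
  obtain ⟨m, hm⟩ := mem_iSup_Kn ha1
  refine ⟨m, a, hm, ?_⟩
  rw [mul_div_cancel₀ _ (by positivity : (p : ℝ) ^ 2 ≠ 0)] at ha2
  have e : c - (a : PadicAlgCl p) = (c - (α : PadicAlgCl p)) + ((α - a : PadicAlgCl p) : ℂ_[p]) := by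
    push_cast
    ring
  rw [e]
  refine (IsUltrametricDist.norm_add_le_max _ _).trans (max_le ?_ ?_)
  · refine hα.le.trans (div_le_self hη.le ?_)
    exact one_le_pow₀ (one_lt_p p).le
  · rw [PadicComplex.norm_extends]
    exact ha2

theorem norm_algebraMap_cp (x : ℚ_[p]) : ‖algebraMap ℚ_[p] ℂ_[p] x‖ = ‖x‖ :=
  PadicComplex.norm_extends' p x

theorem tate_aux {j : ℤ} (hj : j ≠ 0) {c : ℂ_[p]}
    (hc : ∀ g : GG p, cpMap p g c = algebraMap ℚ_[p] ℂ_[p] (chiQ g ^ j) * c) : c = 0 := by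
  have hp1 := one_lt_p p
  have hp0 : (0 : ℝ) < p := by linarith
  have hc1 : ∀ g : GG p, chi p g = 1 → cpMap p g c = c := by
    intro g hg
    rw [hc g]
    have : chiQ g = 1 := by simp [chiQ, hg]
    rw [this, one_zpow, map_one, one_mul]
  have key : ∀ δ : ℝ, 0 < δ → ‖c‖ ≤ p * δ := by
    intro δ hδ
    obtain ⟨m, β, hβ, hcβ⟩ := exists_approx hc1 hδ
    obtain ⟨g, hg1, hg2⟩ := exists_pow_ne_one (p := p) m hj
    set lam := chiQ g ^ j with hlam
    have hl1 : 0 < ‖1 - lam‖ := norm_pos_iff.2 (sub_ne_zero.2 (Ne.symm hg2))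
    have hlam1 : ‖lam‖ = 1 := by rw [hlam, norm_zpow, norm_chiQ, one_zpow]
    set η := min δ (δ * ‖1 - lam‖ / p) with hη
    have hη0 : 0 < η := lt_min hδ (by positivity)
    obtain ⟨m', β', hβ', hcβ'⟩ := exists_approx hc1 hη0
    obtain ⟨R, hR1, hR2, hR3, hR4⟩ := exists_trace (p := p) m m'
    have hβK : β ∈ Kn p (m + 1 + m') := Kn_mono (by omega) hβ
    have hβ'K : β' ∈ Kn p (m + 1 + m') := Kn_mono (by omega) hβ'
    -- the action of `g`
    have h1 : R (g β' - lam • β') = (1 - lam) • R β' := by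
      rw [map_sub, map_smul, hR4 g _ hβ'K, gal_fix hg1 (hR2 _ hβ'K), sub_smul, one_smul]
    have h2 : ‖g β' - lam • β'‖ ≤ η := by
      rw [← PadicComplex.norm_extends]
      have e : ((g β' - lam • β' : PadicAlgCl p) : ℂ_[p]) =
          cpMap p g ((β' : ℂ_[p]) - c) + algebraMap ℚ_[p] ℂ_[p] lam * (c - (β' : ℂ_[p])) := by
        have hcg : cpMap p g c = algebraMap ℚ_[p] ℂ_[p] lam * c := hc g
        rw [map_sub, hcg, cpMap_coe, Algebra.smul_def]
        push_cast
        have : ((algebraMap ℚ_[p] (PadicAlgCl p) lam : PadicAlgCl p) : ℂ_[p]) =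
          algebraMap ℚ_[p] ℂ_[p] lam := rfl
        rw [this]
        ring
      rw [e]
      refine (IsUltrametricDist.norm_add_le_max _ _).trans (max_le ?_ ?_)
      · rw [norm_cpMap, norm_sub_rev]
        exact hcβ'
      · rw [norm_mul, norm_algebraMap_cp, hlam1, one_mul]
        exact hcβ'
    have h3 : g β' - lam • β' ∈ Kn p (m + 1 + m') :=
      sub_mem (gal_mem_Kn g hβ'K) ((Kn p (m + 1 + m')).smul_mem hβ'K)
    have h4 := trace_bound hR3 h3
    rw [h1, norm_smul] at h4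
    have h5 : ‖R β'‖ ≤ δ := by
      have h6 : ‖1 - lam‖ * ‖R β'‖ ≤ ‖1 - lam‖ * δ := by
        refine h4.trans ?_
        calc (p : ℝ) * ‖g β' - lam • β'‖ ≤ p * (δ * ‖1 - lam‖ / p) :=
              mul_le_mul_of_nonneg_left (h2.trans (min_le_right _ _)) hp0.le
          _ = ‖1 - lam‖ * δ := by field_simp
      exact le_of_mul_le_mul_left h6 hl1
    -- comparison of `β` and `R β'`
    have h6 : ‖β - R β'‖ ≤ p * δ := by
      have h7 : β - R β' = R (β - β') := by rw [map_sub, hR1 _ hβ]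
      rw [h7]
      refine (trace_bound hR3 (sub_mem hβK hβ'K)).trans (mul_le_mul_of_nonneg_left ?_ hp0.le)
      rw [← PadicComplex.norm_extends]
      have e : ((β - β' : PadicAlgCl p) : ℂ_[p]) = -(c - (β : ℂ_[p])) + (c - (β' : ℂ_[p])) := by
        push_cast
        ring
      rw [e]
      refine (IsUltrametricDist.norm_add_le_max _ _).trans (max_le ?_ ?_)
      · rw [norm_neg]; exact hcβ
      · exact hcβ'.trans (min_le_left _ _)
    have hpd : δ ≤ p * δ := le_mul_of_one_le_left hδ.le hp1.le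
    have h8 : ‖β‖ ≤ p * δ := by
      have e : β = (β - R β') + R β' := by ring
      rw [e]
      exact (IsUltrametricDist.norm_add_le_max _ _).trans (max_le h6 (h5.trans hpd))
    have e : c = (c - (β : ℂ_[p])) + (β : ℂ_[p]) := by ring
    rw [e]
    refine (IsUltrametricDist.norm_add_le_max _ _).trans (max_le (hcβ.trans hpd) ?_)
    rw [PadicComplex.norm_extends]
    exact h8
  by_contra hne
  have h0 : 0 < ‖c‖ := norm_pos_iff.2 hne
  have h1 := key (‖c‖ / (2 * p)) (by positivity)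
  have h2 : (p : ℝ) * (‖c‖ / (2 * p)) = ‖c‖ / 2 := by field_simp
  rw [h2] at h1
  linarith

/-- **Tate's theorem.** If the elements `g` of a subgroup of finite index of the absolute Galois
group of `ℚ_p` act on `c ∈ ℂ_p` by multiplication by `χ(g) ^ j`, `j ≠ 0`, then `c = 0`. -/
theorem tate (U : Subgroup (GG p)) [U.FiniteIndex] {j : ℤ} (hj : j ≠ 0) {c : ℂ_[p]}
    (hc : ∀ g ∈ U, cpMap p g c = algebraMap ℚ_[p] ℂ_[p] (chiQ g ^ j) * c) : c = 0 := by
  classical
  set f : GG p → ℂ_[p] := fun g => algebraMap ℚ_[p] ℂ_[p] (chiQ g ^ (-j)) * cpMap p g c with hf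
  have hfU : ∀ g u, u ∈ U → f (g * u) = f g := by
    intro g u hu
    simp only [hf]
    rw [chiQ_mul, mul_zpow, cpMap_mul, hc u hu, map_mul, map_mul, cpMap_algebraMap]
    have h1 : algebraMap ℚ_[p] ℂ_[p] (chiQ u ^ (-j)) * algebraMap ℚ_[p] ℂ_[p] (chiQ u ^ j) = 1 := by
      rw [← map_mul, ← zpow_add₀ (chiQ_ne_zero u), neg_add_cancel, zpow_zero, map_one]
    linear_combination (algebraMap ℚ_[p] ℂ_[p] (chiQ g ^ (-j)) * cpMap p g c) * h1
  have hfl : ∀ g h, cpMap p g (f h) = algebraMap ℚ_[p] ℂ_[p] (chiQ g ^ j) * f (g * h) := by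
    intro g h
    simp only [hf]
    rw [map_mul, cpMap_algebraMap, chiQ_mul, mul_zpow, cpMap_mul, map_mul]
    have h1 : algebraMap ℚ_[p] ℂ_[p] (chiQ g ^ j) * algebraMap ℚ_[p] ℂ_[p] (chiQ g ^ (-j)) = 1 := by
      rw [← map_mul, ← zpow_add₀ (chiQ_ne_zero g), add_neg_cancel, zpow_zero, map_one]
    linear_combination (-(algebraMap ℚ_[p] ℂ_[p] (chiQ h ^ (-j)) * cpMap p g (cpMap p h c))) * h1
  let F : GG p ⧸ U → ℂ_[p] := Quotient.lift f (by
    intro a b hab
    have h1 : a⁻¹ * b ∈ U := QuotientGroup.leftRel_apply.1 hab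
    have h2 := hfU a _ h1
    rw [mul_inv_cancel_left] at h2
    exact h2.symm)
  have hFin : Fintype (GG p ⧸ U) := Fintype.ofFinite _
  set N : ℂ_[p] := ∏ x : GG p ⧸ U, F x with hN
  have hNg : ∀ g, cpMap p g N = algebraMap ℚ_[p] ℂ_[p] (chiQ g ^ (j * (Fintype.card (GG p ⧸ U) : ℤ))) * N := by
    intro g
    rw [hN, map_prod]
    have h1 : ∀ x : GG p ⧸ U, cpMap p g (F x) = algebraMap ℚ_[p] ℂ_[p] (chiQ g ^ j) * F (g • x) := by
      intro x
      induction x using QuotientGroup.induction_on with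
      | H h => exact hfl g h
    rw [Finset.prod_congr rfl (fun x _ => h1 x), Finset.prod_mul_distrib, Finset.prod_const,
      Finset.card_univ]
    congr 1
    · rw [← map_pow, zpow_mul, zpow_natCast]
    · exact Fintype.prod_equiv (MulAction.toPerm g) _ _ fun x => rfl
  have hcard : (Fintype.card (GG p ⧸ U) : ℤ) ≠ 0 := by
    exact_mod_cast Fintype.card_ne_zero
  have hN0 := tate_aux (mul_ne_zero hj hcard) hNg
  rw [hN, Finset.prod_eq_zero_iff] at hN0
  obtain ⟨x, -, hx⟩ := hN0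
  induction x using QuotientGroup.induction_on with
  | H h =>
    have h1 : f h = 0 := hx
    simp only [hf] at h1
    rcases mul_eq_zero.1 h1 with h2 | h2
    · rw [map_eq_zero_iff _ (algebraMap ℚ_[p] ℂ_[p]).injective] at h2
      exact absurd h2 (zpow_ne_zero _ (chiQ_ne_zero h))
    · exact (map_eq_zero_iff _ (cpMap p h).injective).1 h2

end Pool.Agent.N829.HT
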