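import Mathlib
import Pool.Agent.N829.HT.Bdr1
import Pool.Agent.N829.HT.Tate3

/-!
The map `θ` on `W(O♭)[1/p]`, with values in `ℂ_[p]`, and the element `[ε] - 1`.
-/

set_option autoImplicit false
set_option linter.unusedSectionVars false

namespace Pool.Agent.N829.HT

open Pool.Agent.W292.FM Ideal WittVector

variable (p : ℕ) [hp : Fact p.Prime]

/-- `A_inf[1/p]` -/
abbrev LL : Type := Localization.Away (p : AI p)

variable {p}

theorem natCast_AI_ne_zero : (p : AI p) ≠ 0 := by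
  intro h
  have h1 : fontaineTheta 𝓞_ℂ_[p] p (p : AI p) = 0 := by rw [h, map_zero]
  rw [map_natCast] at h1
  have h9 := congrArg (fun x : 𝓞_ℂ_[p] => (x : ℂ_[p])) h1
  simp only [ZeroMemClass.coe_zero] at h9
  have h5 : ((p : 𝓞_ℂ_[p]) : ℂ_[p]) = (p : ℂ_[p]) := by simp
  rw [h5] at h9
  exact p_ne_zero p h9

theorem powers_le : Submonoid.powers (p : AI p) ≤ nonZeroDivisors (AI p) :=
  powers_le_nonZeroDivisors_of_noZeroDivisors natCast_AI_ne_zero

instance isDomain_LL : IsDomain (LL p) := IsLocalization.isDomain_localization powers_le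

theorem algebraMap_LL_inj : Function.Injective (algebraMap (AI p) (LL p)) :=
  IsLocalization.injective _ powers_le

theorem isUnit_p_cp : IsUnit ((p : 𝓞_ℂ_[p]) : ℂ_[p]) := by
  have h5 : ((p : 𝓞_ℂ_[p]) : ℂ_[p]) = (p : ℂ_[p]) := by simp
  rw [h5]
  exact (p_ne_zero p).isUnit

variable (p) in
/-- the inclusion of `𝓞[1/p]` in `ℂ_[p]` -/
noncomputable def locC : Localization.Away (p : 𝓞_ℂ_[p]) →+* ℂ_[p] :=
  IsLocalization.Away.lift (p : 𝓞_ℂ_[p]) (g := (𝓞_ℂ_[p]).subtype) isUnit_p_cp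

theorem locC_algebraMap (x : 𝓞_ℂ_[p]) : locC p (algebraMap _ _ x) = (x : ℂ_[p]) :=
  IsLocalization.Away.lift_eq _ _ x

variable (p) in
/-- Fontaine's map `θ : A_inf[1/p] → ℂ_[p]` -/
noncomputable def thC : LL p →+* ℂ_[p] := (locC p).comp (fontaineThetaInvertP 𝓞_ℂ_[p] p)

theorem thC_algebraMap (x : AI p) :
    thC p (algebraMap _ _ x) = (fontaineTheta 𝓞_ℂ_[p] p x : ℂ_[p]) := by
  rw [thC, RingHom.comp_apply, thetaInvertP_algebraMap, locC_algebraMap]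

variable (p) in
/-- the generator of the kernel of `θ` -/
noncomputable def xi : LL p := algebraMap (AI p) (LL p) (xi0 p)

theorem xi_ne_zero : xi p ≠ 0 := by
  rw [xi, Ne, map_eq_zero_iff _ algebraMap_LL_inj]
  exact xi0_ne_zero

theorem thC_xi : thC p (xi p) = 0 := by
  rw [xi, thC_algebraMap, theta_xi0]
  rfl

theorem xi_dvd {x : LL p} (hx : thC p x = 0) : xi p ∣ x := by
  obtain ⟨⟨a, s⟩, h⟩ := IsLocalization.surj (Submonoid.powers (p : AI p)) x
  simp only at h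
  have h1 : fontaineTheta 𝓞_ℂ_[p] p a = 0 := by
    apply Subtype.ext
    have h2 := thC_algebraMap a
    rw [← h, map_mul, hx, zero_mul] at h2
    exact h2.symm
  obtain ⟨b, rfl⟩ := dvd_of_theta h1
  have hu : IsUnit (algebraMap (AI p) (LL p) s) := IsLocalization.map_units _ s
  obtain ⟨u, hu⟩ := hu
  refine ⟨algebraMap (AI p) (LL p) b * ↑u⁻¹, ?_⟩
  rw [← hu, map_mul] at h
  rw [xi, ← mul_assoc, ← h, mul_assoc, Units.mul_inv, mul_one]

theorem mem_kerT_iff {x : LL p} : x ∈ kerT 𝓞_ℂ_[p] p ↔ thC p x = 0 := by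
  constructor
  · intro h
    have h1 : fontaineThetaInvertP 𝓞_ℂ_[p] p x = 0 := h
    rw [thC, RingHom.comp_apply, h1, map_zero]
  · intro h
    obtain ⟨y, rfl⟩ := xi_dvd h
    refine Ideal.mul_mem_right _ _ ?_
    change fontaineThetaInvertP 𝓞_ℂ_[p] p (xi p) = 0
    rw [xi, thetaInvertP_algebraMap, theta_xi0, map_zero]

theorem kerT_eq : kerT 𝓞_ℂ_[p] p = Ideal.span {xi p} := by
  apply le_antisymm
  · intro x hx
    rw [Ideal.mem_span_singleton]
    exact xi_dvd (mem_kerT_iff.1 hx)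
  · rw [Ideal.span_singleton_le_iff_mem]
    exact mem_kerT_iff.2 thC_xi

variable (p) in
/-- the action of the Galois group on `A_inf[1/p]` -/
noncomputable abbrev gL (g : GG p) : LL p →+* LL p := locMap p (intMap p g)

theorem thC_gL (g : GG p) (x : LL p) : thC p (gL p g x) = cpMap p g (thC p x) := by
  have key : (thC p).comp (gL p g) = ((cpMap p g : ℂ_[p] ≃+* ℂ_[p]) : ℂ_[p] →+* ℂ_[p]).comp (thC p) := by
    refine IsLocalization.ringHom_ext (Submonoid.powers (p : AI p)) ?_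
    ext x
    simp only [RingHom.comp_apply]
    rw [locMap_algebraMap, thC_algebraMap, thC_algebraMap, theta_map]
    rfl
  exact congrArg (fun f : LL p →+* ℂ_[p] => f x) key

/-- the cocycle `g ξ / ξ` -/
theorem exists_cocycle (g : GG p) : ∃ u : (LL p)ˣ, gL p g (xi p) = xi p * u := by
  have h := kerT_eq_span_locMap p (intMap p g) (kerT_eq (p := p))
  rw [kerT_eq, Ideal.span_singleton_eq_span_singleton] at h
  obtain ⟨u, hu⟩ := h
  exact ⟨u, hu.symm⟩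

/-! ### The element `ε` -/

theorem coe_pow_cp (x : PadicAlgCl p) (k : ℕ) :
    ((x ^ k : PadicAlgCl p) : ℂ_[p]) = (x : ℂ_[p]) ^ k :=
  map_pow (algebraMap (PadicAlgCl p) ℂ_[p]) x k

theorem norm_zt (n : ℕ) : ‖zt p n‖ = 1 :=
  norm_rootOfUnity (pow_ne_zero _ hp.out.ne_zero) (zt_prim (p := p) n).pow_eq_one

theorem norm_zt_cp (n : ℕ) : ‖((zt p n : PadicAlgCl p) : ℂ_[p])‖ = 1 := by
  rw [PadicComplex.norm_extends, norm_zt]

variable (p) in
/-- the roots of unity as elements of the ring of integers of `ℂ_[p]` -/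
noncomputable def zO (n : ℕ) : 𝓞_ℂ_[p] :=
  ⟨((zt p n : PadicAlgCl p) : ℂ_[p]), (mem_int_iff p _).2 (norm_zt_cp n).le⟩

theorem coe_zO (n : ℕ) : ((zO p n : 𝓞_ℂ_[p]) : ℂ_[p]) = ((zt p n : PadicAlgCl p) : ℂ_[p]) := rfl

theorem zO_zero : zO p 0 = 1 := by
  apply Subtype.ext
  rw [coe_zO, zt_zero]
  rfl

theorem zO_succ (n : ℕ) : zO p (n + 1) ^ p = zO p n := by
  apply Subtype.ext
  rw [SubmonoidClass.coe_pow, coe_zO, coe_zO, ← zt_succ n, coe_pow_cp]

variable (p) in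
/-- the element `ε` of the tilt -/
noncomputable def eps : TT p := mkT (zO p) zO_succ

variable (p) in
/-- the `p`-th root of `ε` -/
noncomputable def eps1 : TT p := mkT (fun n => zO p (n + 1)) fun n => zO_succ (n + 1)

theorem eps1_pow : eps1 p ^ p = eps p := by
  refine Perfection.ext fun n => ?_
  change PreTilt.coeff n (eps1 p ^ p) = PreTilt.coeff n (eps p)
  rw [map_pow, eps1, eps, coeff_mkT, coeff_mkT, ← map_pow, zO_succ]

theorem untilt_eps : (eps p).untilt = 1 := by rw [eps, untilt_mkT, zO_zero]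

theorem untilt_eps1 : (eps1 p).untilt = zO p 1 := by rw [eps1, untilt_mkT]

/-- the quotients `g(ζ_{n + i}) / ζ_{n + i} ^ m` -/
theorem exists_delta (g : GG p) (n m : ℕ) (hm : g (zt p n) = zt p n ^ m) :
    ∃ δ : ℕ → 𝓞_ℂ_[p], δ 0 = 1 ∧ (∀ i, δ (i + 1) ^ p = δ i) ∧
      ∀ i, intMap p g (zO p i) = zO p i ^ m * δ i ^ p ^ n := by
  have hz : ∀ k, ((zt p k : PadicAlgCl p) : ℂ_[p]) ≠ 0 := by
    intro k h
    have := norm_zt_cp (p := p) k
    rw [h, norm_zero] at this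
    exact zero_ne_one this
  have hn : ∀ i, ‖cpMap p g ((zt p (n + i) : PadicAlgCl p) : ℂ_[p]) /
      ((zt p (n + i) : PadicAlgCl p) : ℂ_[p]) ^ m‖ ≤ 1 := by
    intro i
    rw [norm_div, norm_cpMap, norm_pow, norm_zt_cp, one_pow, div_one]
  have hs : ∀ k, ((zt p (k + 1) : PadicAlgCl p) : ℂ_[p]) ^ p = ((zt p k : PadicAlgCl p) : ℂ_[p]) := by
    intro k
    rw [← zt_succ k, coe_pow_cp]
  refine ⟨fun i => ⟨_, (mem_int_iff p _).2 (hn i)⟩, ?_, ?_, ?_⟩
  · apply Subtype.ext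
    change cpMap p g ((zt p (n + 0) : PadicAlgCl p) : ℂ_[p]) /
      ((zt p (n + 0) : PadicAlgCl p) : ℂ_[p]) ^ m = 1
    rw [add_zero, cpMap_coe, hm, coe_pow_cp, div_self]
    exact pow_ne_zero _ (hz n)
  · intro i
    apply Subtype.ext
    change (cpMap p g ((zt p (n + (i + 1)) : PadicAlgCl p) : ℂ_[p]) /
      ((zt p (n + (i + 1)) : PadicAlgCl p) : ℂ_[p]) ^ m) ^ p =
        cpMap p g ((zt p (n + i) : PadicAlgCl p) : ℂ_[p]) / ((zt p (n + i) : PadicAlgCl p) : ℂ_[p]) ^ m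
    rw [div_pow, ← map_pow, ← add_assoc, hs, ← pow_mul, mul_comm m p, pow_mul, hs]
  · intro i
    apply Subtype.ext
    have e : ((zt p (n + i) : PadicAlgCl p) : ℂ_[p]) ^ p ^ n = ((zt p i : PadicAlgCl p) : ℂ_[p]) := by
      rw [← zt_pow i n, add_comm n i, coe_pow_cp]
    change cpMap p g ((zt p i : PadicAlgCl p) : ℂ_[p]) = ((zt p i : PadicAlgCl p) : ℂ_[p]) ^ m *
      (cpMap p g ((zt p (n + i) : PadicAlgCl p) : ℂ_[p]) /
      ((zt p (n + i) : PadicAlgCl p) : ℂ_[p]) ^ m) ^ p ^ n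
    rw [div_pow, ← map_pow, e, ← pow_mul, mul_comm m, pow_mul, e, mul_div_cancel₀]
    exact pow_ne_zero _ (hz i)

/-! ### The element `μ = [ε] - 1` -/

/-- the absolute value of the tilt -/
noncomputable def nT (x : TT p) : ℝ := ‖(x.untilt : ℂ_[p])‖

theorem nT_mul (x y : TT p) : nT (x * y) = nT x * nT y := by
  simp [nT]

theorem nT_pow (x : TT p) (n : ℕ) : nT (x ^ n) = nT x ^ n := by
  simp [nT]

theorem nT_nonneg (x : TT p) : 0 ≤ nT x := norm_nonneg _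

theorem nT_neg (x : TT p) : nT (-x) = nT x := by
  have h : nT (-x) ^ 2 = nT x ^ 2 := by rw [← nT_pow, ← nT_pow, neg_sq]
  exact (pow_left_inj₀ (nT_nonneg _) (nT_nonneg _) two_ne_zero).1 h

theorem nT_pflat : nT (pflat p) = (p : ℝ)⁻¹ := by
  rw [nT, untilt_pflat, ← norm_p p]
  congr 1

theorem nT_seq (x : TT p) (n : ℕ) : nT x = ‖(seqT x n : ℂ_[p])‖ ^ p ^ n := by
  have h1 := pow_ppow_eq (a := seqT x) (seqT_succ_pow x) n
  rw [seqT_zero] at h1
  rw [nT, ← h1]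
  simp

theorem norm_zt2_gt : (p : ℝ)⁻¹ < ‖zt p 2 - 1‖ := by
  have h := norm_sub_one_pow_totient (zt_prim (p := p) (1 + 1))
  have hφ : Nat.totient (p ^ (1 + 1)) = p * (p - 1) := by
    rw [Nat.totient_prime_pow_succ hp.out, pow_one]
  rw [hφ] at h
  have hp1 := one_lt_p p
  have hp0 : (0 : ℝ) < p := by linarith
  by_contra hcon
  push Not at hcon
  have h1 : ‖zt p 2 - 1‖ ^ (p * (p - 1)) ≤ ((p : ℝ)⁻¹) ^ (p * (p - 1)) :=
    pow_le_pow_left₀ (norm_nonneg _) hcon _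
  have h2 : ((p : ℝ)⁻¹) ^ (p * (p - 1)) < (p : ℝ)⁻¹ := by
    have h3 : 2 ≤ p * (p - 1) := by
      have := hp.out.two_le
      calc 2 ≤ p := this
        _ = p * 1 := (mul_one p).symm
        _ ≤ p * (p - 1) := Nat.mul_le_mul_left p (by omega)
    have h4 : (p : ℝ)⁻¹ < 1 := inv_lt_one_of_one_lt₀ hp1
    calc ((p : ℝ)⁻¹) ^ (p * (p - 1)) ≤ ((p : ℝ)⁻¹) ^ 2 :=
          pow_le_pow_of_le_one (by positivity) h4.le h3
      _ = (p : ℝ)⁻¹ * (p : ℝ)⁻¹ := sq _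
      _ < (p : ℝ)⁻¹ * 1 := mul_lt_mul_of_pos_left h4 (by positivity)
      _ = (p : ℝ)⁻¹ := mul_one _
  have h5 : zt p (1 + 1) = zt p 2 := rfl
  rw [h5] at h
  linarith

theorem coe_sub_one_zO (n : ℕ) : ((zO p n - 1 : 𝓞_ℂ_[p]) : ℂ_[p]) =
    ((zt p n - 1 : PadicAlgCl p) : ℂ_[p]) := by
  have h1 : ((zO p n - 1 : 𝓞_ℂ_[p]) : ℂ_[p]) = (zO p n : ℂ_[p]) - 1 := by simp
  have h2 := map_sub (algebraMap (PadicAlgCl p) ℂ_[p]) (zt p n) 1
  rw [map_one] at h2
  rw [h1, coe_zO]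
  exact h2.symm

theorem nT_eps1 : nT (eps1 p - 1) ^ (p - 1) = (p : ℝ)⁻¹ := by
  set x := eps1 p - 1 with hx
  have h1 : Ideal.Quotient.mk (span {(p : 𝓞_ℂ_[p])}) (seqT x 1 - (zO p 2 - 1)) = 0 := by
    rw [map_sub, mk_seqT, hx, map_sub, map_one, eps1, coeff_mkT, map_sub, map_one]
    exact sub_self _
  rw [mk_eq_zero_iff] at h1
  have h2 : ‖((zO p 2 - 1 : 𝓞_ℂ_[p]) : ℂ_[p])‖ = ‖zt p 2 - 1‖ := by
    rw [coe_sub_one_zO, PadicComplex.norm_extends]
  have h3 : ‖(seqT x 1 : ℂ_[p])‖ = ‖zt p 2 - 1‖ := by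
    rw [← h2]
    have h4 : ((seqT x 1 - (zO p 2 - 1) : 𝓞_ℂ_[p]) : ℂ_[p]) =
        (seqT x 1 : ℂ_[p]) - ((zO p 2 - 1 : 𝓞_ℂ_[p]) : ℂ_[p]) := by simp
    rw [h4, norm_p] at h1
    have h5 : ‖(seqT x 1 : ℂ_[p]) - ((zO p 2 - 1 : 𝓞_ℂ_[p]) : ℂ_[p])‖ <
        ‖((zO p 2 - 1 : 𝓞_ℂ_[p]) : ℂ_[p])‖ := by
      rw [h2]
      exact lt_of_le_of_lt h1 norm_zt2_gt
    have h6 : (seqT x 1 : ℂ_[p]) = ((seqT x 1 : ℂ_[p]) - ((zO p 2 - 1 : 𝓞_ℂ_[p]) : ℂ_[p])) +
        ((zO p 2 - 1 : 𝓞_ℂ_[p]) : ℂ_[p]) := by ring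
    rw [h6, IsUltrametricDist.norm_add_eq_max_of_norm_ne_norm h5.ne, max_eq_right h5.le]
  rw [nT_seq x 1, h3, pow_one, ← pow_mul]
  have h := norm_sub_one_pow_totient (zt_prim (p := p) (1 + 1))
  have hφ : Nat.totient (p ^ (1 + 1)) = p * (p - 1) := by
    rw [Nat.totient_prime_pow_succ hp.out, pow_one]
  rw [hφ] at h
  exact h

theorem constCoeff_teich (t : TT p) : WittVector.constantCoeff (teichmuller p t) = t :=
  teichmuller_coeff_zero p t

theorem eps1_ne_one : eps1 p ≠ 1 := by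
  intro h
  have h1 : nT (eps1 p - 1) = 0 := by
    rw [h, sub_self]
    have h2 := nT_mul (0 : TT p) (pflat p)
    rw [zero_mul, nT_pflat] at h2
    have hp1 := one_lt_p p
    have h3 : (p : ℝ)⁻¹ < 1 := inv_lt_one_of_one_lt₀ hp1
    nlinarith [nT_nonneg (0 : TT p)]
  have h2 := nT_eps1 (p := p)
  have h3 : p - 1 ≠ 0 := by have := hp.out.two_le; omega
  rw [h1, zero_pow h3] at h2
  have hp1 := one_lt_p p
  have : (0 : ℝ) < (p : ℝ)⁻¹ := by positivity
  linarith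

theorem geom_eps1 : ∑ i ∈ Finset.range p, eps1 p ^ i = (eps1 p - 1) ^ (p - 1) := by
  have h1 : (∑ i ∈ Finset.range p, eps1 p ^ i) * (eps1 p - 1) =
      (eps1 p - 1) ^ (p - 1) * (eps1 p - 1) := by
    rw [geom_sum_mul, ← pow_succ, Nat.sub_add_cancel hp.out.one_le, sub_pow_char, one_pow]
  exact mul_right_cancel₀ (sub_ne_zero.2 eps1_ne_one) h1

/-- the element `μ = [ε] - 1` -/
theorem exists_mu : ∃ w : AI p, teichmuller p (eps p) - 1 = xi0 p * w ∧
    fontaineTheta 𝓞_ℂ_[p] p w ≠ 0 := by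
  set om : AI p := ∑ i ∈ Finset.range p, teichmuller p (eps1 p) ^ i with hom
  have h1 : fontaineTheta 𝓞_ℂ_[p] p om = 0 := by
    rw [hom, map_sum]
    simp only [map_pow, fontaineTheta_teichmuller, untilt_eps1]
    apply Subtype.ext
    have h2 : ((∑ i ∈ Finset.range p, zO p 1 ^ i : 𝓞_ℂ_[p]) : ℂ_[p]) =
        ∑ i ∈ Finset.range p, ((zt p 1 : PadicAlgCl p) : ℂ_[p]) ^ i := by
      simp [coe_zO]
    change ((∑ i ∈ Finset.range p, zO p 1 ^ i : 𝓞_ℂ_[p]) : ℂ_[p]) = 0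
    rw [h2]
    have h3 : IsPrimitiveRoot (zt p 1) p := by
      have := zt_prim (p := p) 1
      rw [pow_one p] at this
      exact this
    have h4 := h3.geom_sum_eq_zero hp.out.one_lt
    have h5 := congrArg (algebraMap (PadicAlgCl p) ℂ_[p]) h4
    rw [map_sum, map_zero] at h5
    simp only [map_pow] at h5
    exact h5
  obtain ⟨y, hy⟩ := dvd_of_theta h1
  have h2 : teichmuller p (eps p) - 1 = (teichmuller p (eps1 p) - 1) * om := by
    rw [hom, mul_geom_sum, ← map_pow, eps1_pow]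
  refine ⟨(teichmuller p (eps1 p) - 1) * y, ?_, ?_⟩
  · rw [h2, hy]
    ring
  · rw [map_mul, map_sub, map_one, fontaineTheta_teichmuller, untilt_eps1]
    refine mul_ne_zero ?_ ?_
    · intro h3
      have h4 : ‖((zO p 1 - 1 : 𝓞_ℂ_[p]) : ℂ_[p])‖ = ‖((0 : 𝓞_ℂ_[p]) : ℂ_[p])‖ :=
        congrArg (fun x : 𝓞_ℂ_[p] => ‖(x : ℂ_[p])‖) h3
      rw [coe_sub_one_zO, PadicComplex.norm_extends] at h4
      have h5 : ‖((0 : 𝓞_ℂ_[p]) : ℂ_[p])‖ = 0 := by simp
      rw [h5] at h4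
      exact (norm_pi_pos (p := p) 0).ne' h4
    · -- the reduction of `y`
      set y0 := WittVector.constantCoeff y with hy0
      have h3 : -(pflat p) * y0 = (eps1 p - 1) ^ (p - 1) := by
        have h4 := congrArg WittVector.constantCoeff hy
        rw [hom, map_sum, map_mul] at h4
        simp only [map_pow, constCoeff_teich] at h4
        rw [geom_eps1] at h4
        rw [h4]
        congr 1
        exact coeff_zero_xi0.symm
      have h4 : nT y0 = 1 := by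
        have h5 := congrArg nT h3
        rw [nT_mul, nT_neg, nT_pow, nT_eps1, nT_pflat] at h5
        have hp1 := one_lt_p p
        have h6 : (p : ℝ)⁻¹ ≠ 0 := by positivity
        exact mul_left_cancel₀ h6 (by rw [h5, mul_one])
      intro h5
      have h6 := mk_fontaineTheta (R := 𝓞_ℂ_[p]) (p := p) y
      rw [h5, map_zero] at h6
      have h7 : Ideal.Quotient.mk (span {(p : 𝓞_ℂ_[p])}) (y0.untilt) = 0 := by
        rw [PreTilt.mk_untilt_eq_coeff_zero]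
        exact h6.symm
      rw [mk_eq_zero_iff] at h7
      have h8 : nT y0 < 1 := lt_of_le_of_lt h7 (norm_p_lt_one p)
      rw [h4] at h8
      exact lt_irrefl _ h8

end Pool.Agent.N829.HT
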