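import Mathlib
import Pool.Agent.N829.HT.Bdr2

/-!
The cocycle `g ξ / ξ` has the values `χ(g) Ω / g Ω` in `ℂ_[p]`: the kernel of `θ` modulo its square
is the Tate twist of `ℂ_[p]`.
-/

set_option autoImplicit false
set_option linter.unusedSectionVars false

namespace Pool.Agent.N829.HT

open Pool.Agent.W292.FM Ideal WittVector

variable {p : ℕ} [hp : Fact p.Prime]

theorem tiltMap_eps (g : GG p) (n m : ℕ) (hm : g (zt p n) = zt p n ^ m) :
    ∃ η : TT p, η.untilt = 1 ∧ tiltMap p (intMap p g) (eps p) = eps p ^ m * η ^ p ^ n := by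
  obtain ⟨δ, h0, h1, h2⟩ := exists_delta g n m hm
  refine ⟨mkT δ h1, by rw [untilt_mkT, h0], ?_⟩
  refine Perfection.ext fun i => ?_
  change PreTilt.coeff i (tiltMap p (intMap p g) (eps p)) =
    PreTilt.coeff i (eps p ^ m * mkT δ h1 ^ p ^ n)
  rw [coeff_tiltMap, map_mul, map_pow, map_pow, eps, coeff_mkT, coeff_mkT, modPMap_mk, h2,
    map_mul, map_pow, map_pow]

theorem norm_val_sub_le (g : GG p) (n : ℕ) :
    ‖((((chi p g : ℤ_[p]ˣ) : ℤ_[p]).toZModPow n).val : ℚ_[p]) - chiQ g‖ ≤ (p : ℝ)⁻¹ ^ n := by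
  have hn : NeZero (p ^ n) := ⟨pow_ne_zero _ hp.out.ne_zero⟩
  set x : ℤ_[p] := ((chi p g : ℤ_[p]ˣ) : ℤ_[p]) with hx
  have h1 : (((x.toZModPow n).val : ℤ_[p]) - x) ∈ RingHom.ker (PadicInt.toZModPow (p := p) n) := by
    rw [RingHom.mem_ker, map_sub, map_natCast, ZMod.natCast_zmod_val, sub_self]
  rw [PadicInt.ker_toZModPow, ← PadicInt.norm_le_pow_iff_mem_span_pow] at h1
  have h2 : ((((x.toZModPow n).val : ℤ_[p]) - x : ℤ_[p]) : ℚ_[p]) =
      ((x.toZModPow n).val : ℚ_[p]) - chiQ g := by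
    rw [PadicInt.coe_sub, PadicInt.coe_natCast]
    rfl
  rw [← h2, PadicInt.padic_norm_e_of_padicInt]
  refine h1.trans (le_of_eq ?_)
  rw [zpow_neg, zpow_natCast, inv_pow]

/-- The values of the cocycle. -/
theorem cocycle_eq (g : GG p) {u : LL p} (hu : gL p g (xi p) = xi p * u) {w : AI p}
    (hw : teichmuller p (eps p) - 1 = xi0 p * w) :
    thC p u * cpMap p g (fontaineTheta 𝓞_ℂ_[p] p w : ℂ_[p]) =
      algebraMap ℚ_[p] ℂ_[p] (chiQ g) * (fontaineTheta 𝓞_ℂ_[p] p w : ℂ_[p]) := by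
  set Om : ℂ_[p] := (fontaineTheta 𝓞_ℂ_[p] p w : ℂ_[p]) with hOm
  have hOm1 : ‖Om‖ ≤ 1 := norm_int_le p _
  have key : ∀ n : ℕ, ‖thC p u * cpMap p g Om - algebraMap ℚ_[p] ℂ_[p] (chiQ g) * Om‖ ≤
      (p : ℝ)⁻¹ ^ n := by
    intro n
    set m := (((chi p g : ℤ_[p]ˣ) : ℤ_[p]).toZModPow n).val with hm
    obtain ⟨η, hη1, hη2⟩ := tiltMap_eps g n m (gal_zt g n)
    have h1 : fontaineTheta 𝓞_ℂ_[p] p (teichmuller p η - 1) = 0 := by
      rw [map_sub, map_one, fontaineTheta_teichmuller, hη1, sub_self]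
    obtain ⟨h, hh⟩ := dvd_of_theta h1
    set G1 : AI p := ∑ i ∈ Finset.range m, teichmuller p (eps p) ^ i with hG1
    set G2 : AI p := ∑ i ∈ Finset.range (p ^ n), teichmuller p η ^ i with hG2
    have e1 : WittVector.map (tiltMap p (intMap p g)) (teichmuller p (eps p) - 1) =
        xi0 p * (w * G1 * teichmuller p η ^ p ^ n + h * G2) := by
      rw [map_sub, map_one, WittVector.map_teichmuller, hη2, map_mul, map_pow, map_pow]
      have e2 : teichmuller p (eps p) ^ m - 1 = (teichmuller p (eps p) - 1) * G1 :=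
        (mul_geom_sum _ _).symm
      have e3 : teichmuller p η ^ p ^ n - 1 = (teichmuller p η - 1) * G2 :=
        (mul_geom_sum _ _).symm
      rw [hw] at e2
      rw [hh] at e3
      linear_combination (teichmuller p η ^ p ^ n) * e2 + e3
    have e4 : gL p g (algebraMap (AI p) (LL p) (teichmuller p (eps p) - 1)) =
        xi p * (u * gL p g (algebraMap (AI p) (LL p) w)) := by
      rw [hw, map_mul, map_mul, ← mul_assoc, ← hu]
      rfl
    rw [gL, locMap_algebraMap, e1, map_mul] at e4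
    have e5 := mul_left_cancel₀ xi_ne_zero e4
    have e6 := congrArg (thC p) e5
    rw [map_mul, thC_gL, thC_algebraMap, thC_algebraMap, ← hOm] at e6
    have e7 : fontaineTheta 𝓞_ℂ_[p] p (w * G1 * teichmuller p η ^ p ^ n + h * G2) =
        fontaineTheta 𝓞_ℂ_[p] p w * m + fontaineTheta 𝓞_ℂ_[p] p h * (p ^ n : ℕ) := by
      rw [map_add, map_mul, map_mul, map_mul, map_pow, fontaineTheta_teichmuller, hη1, one_pow,
        mul_one, hG1, hG2, map_sum, map_sum]
      simp only [map_pow, fontaineTheta_teichmuller, hη1, untilt_eps, one_pow, Finset.sum_const,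
        Finset.card_range, nsmul_eq_mul, mul_one]
    have e8 : (fontaineTheta 𝓞_ℂ_[p] p (w * G1 * teichmuller p η ^ p ^ n + h * G2) : ℂ_[p]) =
        Om * m + (fontaineTheta 𝓞_ℂ_[p] p h : ℂ_[p]) * (p : ℂ_[p]) ^ n := by
      rw [e7]
      simp [hOm]
    rw [e8] at e6
    rw [← e6]
    have e9 : Om * m + (fontaineTheta 𝓞_ℂ_[p] p h : ℂ_[p]) * (p : ℂ_[p]) ^ n -
        algebraMap ℚ_[p] ℂ_[p] (chiQ g) * Om =
        Om * algebraMap ℚ_[p] ℂ_[p] ((m : ℚ_[p]) - chiQ g) +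
          (fontaineTheta 𝓞_ℂ_[p] p h : ℂ_[p]) * (p : ℂ_[p]) ^ n := by
      rw [map_sub, map_natCast]
      ring
    rw [e9]
    refine (IsUltrametricDist.norm_add_le_max _ _).trans (max_le ?_ ?_)
    · rw [norm_mul, norm_algebraMap_cp]
      exact (mul_le_of_le_one_left (norm_nonneg _) hOm1).trans (norm_val_sub_le g n)
    · rw [norm_mul, norm_pow, norm_p]
      exact mul_le_of_le_one_left (by positivity) (norm_int_le p _)
  rw [← sub_eq_zero, ← norm_le_zero_iff]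
  have hlim : Filter.Tendsto (fun n : ℕ => (p : ℝ)⁻¹ ^ n) Filter.atTop (nhds 0) :=
    tendsto_pow_atTop_nhds_zero_of_lt_one (by positivity) (inv_lt_one_of_one_lt₀ (one_lt_p p))
  exact ge_of_tendsto' hlim key

/-- There is a nonzero `Ω ∈ ℂ_[p]` such that the cocycle has the values `χ(g) Ω / g Ω`. -/
theorem exists_Omega : ∃ Om : ℂ_[p], Om ≠ 0 ∧ ∀ (g : GG p) (u : LL p),
    gL p g (xi p) = xi p * u → thC p u * cpMap p g Om = algebraMap ℚ_[p] ℂ_[p] (chiQ g) * Om := by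
  obtain ⟨w, hw, hw0⟩ := exists_mu (p := p)
  refine ⟨(fontaineTheta 𝓞_ℂ_[p] p w : ℂ_[p]), fun h => hw0 (Subtype.ext h), fun g u hu => ?_⟩
  exact cocycle_eq g hu hw

end Pool.Agent.N829.HT
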