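import Mathlib
import Pool.Agent.N829.HT.Bdr3

/-!
One-dimensional representations of the absolute Galois group of a `p`-adic field whose Hodge-Tate-Sen
weight is not an integer have no periods in the field `B_dR`.
-/

set_option autoImplicit false
set_option linter.unusedSectionVars false

namespace Pool.Agent.N829.HT

open Pool.Agent.W292.FM Ideal WittVector

variable {p : ℕ} [hp : Fact p.Prime]

/-- the ring `B_dR^+` -/
abbrev BP (p : ℕ) [hp : Fact p.Prime] : Type := BDeRhamPlus 𝓞_ℂ_[p] p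

/-- the field `B_dR` -/
abbrev BB (p : ℕ) [hp : Fact p.Prime] : Type := Localization (genSub 𝓞_ℂ_[p] p)

/-- the canonical map `A_inf[1/p] → B_dR^+` -/
noncomputable abbrev tp : LL p →+* BP p := toPlus p

/-- the uniformiser of `B_dR^+` -/
noncomputable def xip (p : ℕ) [hp : Fact p.Prime] : BP p := tp (xi p)

theorem xip_mul_eq_zero {b : BP p} (h : xip p * b = 0) : b = 0 :=
  eq_zero_of_mul (I := kerT 𝓞_ℂ_[p] p) (A := LL p) kerT_eq xi_ne_zero h

theorem xip_pow_mul {n : ℕ} {b c : BP p} (h : xip p ^ n * b = xip p ^ n * c) : b = c := by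
  induction n generalizing b c with
  | zero => simpa using h
  | succ n ih =>
    rw [pow_succ, mul_assoc, mul_assoc] at h
    have h1 := ih h
    rw [← sub_eq_zero, ← mul_sub] at h1
    exact sub_eq_zero.1 (xip_mul_eq_zero h1)

theorem genSub_eq {s : BP p} (hs : s ∈ genSub 𝓞_ℂ_[p] p) :
    ∃ (m : ℕ) (v : (BP p)ˣ), s = xip p ^ m * v := by
  induction hs using Submonoid.closure_induction with
  | mem x hx =>
    obtain ⟨a, ha, rfl⟩ := hx
    have h1 : kerT 𝓞_ℂ_[p] p = Ideal.span {a} := ha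
    rw [kerT_eq, Ideal.span_singleton_eq_span_singleton] at h1
    obtain ⟨u, hu⟩ := h1
    refine ⟨1, Units.map (tp (p := p)).toMonoidHom u, ?_⟩
    rw [pow_one, ← hu]
    change tp (xi p * (u : LL p)) = tp (xi p) * tp (u : LL p)
    rw [map_mul]
  | one => exact ⟨0, 1, by simp⟩
  | mul x y _ _ hx hy =>
    obtain ⟨m, v, rfl⟩ := hx
    obtain ⟨n, w, rfl⟩ := hy
    exact ⟨m + n, v * w, by rw [Units.val_mul]; ring⟩

theorem genSub_le : genSub 𝓞_ℂ_[p] p ≤ nonZeroDivisors (BP p) := by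
  intro s hs
  obtain ⟨m, v, rfl⟩ := genSub_eq hs
  rw [mem_nonZeroDivisors_iff_right]
  intro x hx
  have h1 : xip p ^ m * (x * v) = xip p ^ m * 0 := by
    rw [mul_zero, ← hx]
    ring
  have h2 := xip_pow_mul h1
  exact (Units.mul_left_eq_zero v).1 h2

theorem iota_inj : Function.Injective (algebraMap (BP p) (BB p)) :=
  IsLocalization.injective _ genSub_le

theorem xip_mem : xip p ∈ genSub 𝓞_ℂ_[p] p :=
  Submonoid.subset_closure ⟨xi p, kerT_eq, rfl⟩

theorem isUnit_xip : IsUnit (algebraMap (BP p) (BB p) (xip p)) :=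
  IsLocalization.map_units _ (⟨_, xip_mem⟩ : genSub 𝓞_ℂ_[p] p)

/-- the map `θ : B_dR^+ → ℂ_[p]` -/
noncomputable def thP (p : ℕ) [hp : Fact p.Prime] : BP p →+* ℂ_[p] :=
  (Ideal.Quotient.lift (kerT 𝓞_ℂ_[p] p ^ 1) (thC p) (fun a ha => by
    rw [pow_one] at ha
    exact mem_kerT_iff.1 ha)).comp (evalP p 1)

theorem thP_of {y : BP p} {z : LL p} (h : evalP p 1 y = Ideal.Quotient.mk _ z) :
    thP p y = thC p z := by
  rw [thP, RingHom.comp_apply, h, Ideal.Quotient.lift_mk]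

theorem thP_tp (z : LL p) : thP p (tp z) = thC p z := thP_of (evalP_toPlus p 1 z)

theorem thP_ne_zero {y : BP p} (h : evalP p 1 y ≠ 0) : thP p y ≠ 0 := by
  intro h0
  apply h
  obtain ⟨z, hz⟩ := Ideal.Quotient.mk_surjective (evalP p 1 y)
  rw [thP_of hz.symm] at h0
  rw [← hz, Ideal.Quotient.eq_zero_iff_mem, pow_one]
  exact mem_kerT_iff.2 h0

/-- the action of the Galois group on `B_dR^+` -/
noncomputable abbrev gP (g : GG p) : BP p →+* BP p := plusMap p (intMap p g)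

/-- the action of the Galois group on `B_dR` -/
noncomputable abbrev gB (g : GG p) : BB p →+* BB p := bdrMap p (intMap p g)

theorem thP_gP (g : GG p) (y : BP p) : thP p (gP g y) = cpMap p g (thP p y) := by
  obtain ⟨z, hz⟩ := Ideal.Quotient.mk_surjective (evalP p 1 y)
  have h1 : evalP p 1 (gP g y) = Ideal.Quotient.mk _ (gL p g z) := by
    rw [evalP_plusMap, ← hz]
    rfl
  rw [thP_of h1, thP_of hz.symm, thC_gL]

/-! ### Scalars -/

theorem norm_int_sub_le (f g : ℤ_[p] →+* 𝓞_ℂ_[p]) (x : ℤ_[p]) (n : ℕ) :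
    ‖((f x : 𝓞_ℂ_[p]) : ℂ_[p]) - (g x : ℂ_[p])‖ ≤ (p : ℝ)⁻¹ ^ n := by
  have hn : NeZero (p ^ n) := ⟨pow_ne_zero _ hp.out.ne_zero⟩
  have h1 : (x - ((x.toZModPow n).val : ℤ_[p])) ∈ RingHom.ker (PadicInt.toZModPow (p := p) n) := by
    rw [RingHom.mem_ker, map_sub, map_natCast, ZMod.natCast_zmod_val, sub_self]
  rw [PadicInt.ker_toZModPow, Ideal.mem_span_singleton] at h1
  obtain ⟨y, hy⟩ := h1
  have h2 : ((f x : 𝓞_ℂ_[p]) : ℂ_[p]) - (g x : ℂ_[p]) =
      (p : ℂ_[p]) ^ n * (((f y : 𝓞_ℂ_[p]) : ℂ_[p]) - (g y : ℂ_[p])) := by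
    have h3 : x = ((x.toZModPow n).val : ℤ_[p]) + (p : ℤ_[p]) ^ n * y := by rw [← hy]; ring
    have h4 : ∀ h : ℤ_[p] →+* 𝓞_ℂ_[p], ((h x : 𝓞_ℂ_[p]) : ℂ_[p]) =
        ((x.toZModPow n).val : ℂ_[p]) + (p : ℂ_[p]) ^ n * (h y : ℂ_[p]) := by
      intro h
      have h5 : h x = (((x.toZModPow n).val : ℕ) : 𝓞_ℂ_[p]) + (p : 𝓞_ℂ_[p]) ^ n * h y := by
        conv_lhs => rw [h3]
        rw [map_add, map_mul, map_pow, map_natCast, map_natCast]
      rw [h5]
      generalize (x.toZModPow n).val = k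
      simp
    rw [h4 f, h4 g]
    ring
  rw [h2, norm_mul, norm_pow, norm_p]
  refine mul_le_of_le_one_right (by positivity) ?_
  rw [sub_eq_add_neg]
  refine (IsUltrametricDist.norm_add_le_max _ _).trans (max_le (norm_int_le p _) ?_)
  rw [norm_neg]
  exact norm_int_le p _

theorem thC_qpMap (c : ℚ_[p]) : thC p (qpMap 𝓞_ℂ_[p] p c) = algebraMap ℚ_[p] ℂ_[p] c := by
  -- the inclusion of `ℤ_[p]`
  have hmem : ∀ x : ℤ_[p], algebraMap ℚ_[p] ℂ_[p] (x : ℚ_[p]) ∈ 𝓞_ℂ_[p] := by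
    intro x
    rw [mem_int_iff, norm_algebraMap_cp]
    exact x.2
  let j : ℤ_[p] →+* 𝓞_ℂ_[p] :=
    ((algebraMap ℚ_[p] ℂ_[p]).comp (PadicInt.Coe.ringHom (p := p))).codRestrict 𝓞_ℂ_[p] hmem
  let f : ℤ_[p] →+* 𝓞_ℂ_[p] := (fontaineTheta 𝓞_ℂ_[p] p).comp (zpMap 𝓞_ℂ_[p] p)
  have hfj : ∀ x, ((f x : 𝓞_ℂ_[p]) : ℂ_[p]) = (j x : ℂ_[p]) := by
    intro x
    rw [← sub_eq_zero, ← norm_le_zero_iff]
    have hlim : Filter.Tendsto (fun n : ℕ => (p : ℝ)⁻¹ ^ n) Filter.atTop (nhds 0) :=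
      tendsto_pow_atTop_nhds_zero_of_lt_one (by positivity) (inv_lt_one_of_one_lt₀ (one_lt_p p))
    exact ge_of_tendsto' hlim (norm_int_sub_le f j x)
  have key : (thC p).comp (qpMap 𝓞_ℂ_[p] p) = algebraMap ℚ_[p] ℂ_[p] := by
    refine IsLocalization.ringHom_ext (nonZeroDivisors ℤ_[p]) ?_
    ext x
    simp only [RingHom.comp_apply]
    rw [qpMap_coe, thC_algebraMap]
    exact hfj x
  exact congrArg (fun f : ℚ_[p] →+* ℂ_[p] => f c) key

theorem thP_algebraMap (c : ℚ_[p]) : thP p (algebraMap ℚ_[p] (BP p) c) = algebraMap ℚ_[p] ℂ_[p] c := by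
  rw [algebraMap_plus]
  change thP p (tp (qpMap 𝓞_ℂ_[p] p c)) = _
  rw [thP_tp, thC_qpMap]

/-! ### The main result on periods -/

/-- A nonzero element of `B_dR` on which the Galois group acts by scalars has a leading coefficient
in `ℂ_[p]`, on which the Galois group acts by these scalars and an integral power of `χ`. -/
theorem leading_coeff (S : Set (GG p)) (lam : GG p → ℚ_[p]) {x : BB p} (hx : x ≠ 0)
    (h : ∀ g ∈ S, gB g x = algebraMap ℚ_[p] (BB p) (lam g) * x) :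
    ∃ (k : ℤ) (c : ℂ_[p]), c ≠ 0 ∧
      ∀ g ∈ S, cpMap p g c = algebraMap ℚ_[p] ℂ_[p] (lam g * chiQ g ^ k) * c := by
  obtain ⟨⟨b, s⟩, hb⟩ := IsLocalization.surj (genSub 𝓞_ℂ_[p] p) x
  simp only at hb
  obtain ⟨m, v, hv⟩ := genSub_eq s.2
  rw [hv, map_mul, map_pow] at hb
  set X := algebraMap (BP p) (BB p) (xip p) with hX
  have hXu : IsUnit X := isUnit_xip
  have hvv : algebraMap (BP p) (BB p) v * algebraMap (BP p) (BB p) (v⁻¹ : (BP p)ˣ) = 1 := by
    rw [← map_mul, Units.mul_inv, map_one]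
  have h1 : X ^ m * x = algebraMap (BP p) (BB p) (b * (v⁻¹ : (BP p)ˣ)) := by
    rw [map_mul, ← hb]
    linear_combination (-(x * X ^ m)) * hvv
  have hb0 : b * (v⁻¹ : (BP p)ˣ) ≠ 0 := by
    intro h2
    rw [h2, map_zero] at h1
    exact hx ((hXu.pow m).mul_right_eq_zero.1 h1)
  obtain ⟨n, b', hb', hb1⟩ : ∃ (n : ℕ) (b' : BP p), b * (v⁻¹ : (BP p)ˣ) = xip p ^ n * b' ∧
      evalP p 1 b' ≠ 0 := exists_leading (I := kerT 𝓞_ℂ_[p] p) (A := LL p) kerT_eq hb0
  rw [hb', map_mul, map_pow] at h1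
  obtain ⟨Om, hOm, hcoc⟩ := exists_Omega (p := p)
  have hc0 := thP_ne_zero hb1
  refine ⟨(m : ℤ) - n, thP p b' * Om ^ ((m : ℤ) - n), mul_ne_zero hc0 (zpow_ne_zero _ hOm),
    fun g hg => ?_⟩
  obtain ⟨u, hu⟩ := exists_cocycle g
  have h2 := hcoc g u hu
  have hgX : gB g X = X * algebraMap (BP p) (BB p) (tp (u : LL p)) := by
    rw [hX, gB, bdrMap_algebraMap, xip]
    change algebraMap (BP p) (BB p) (plusMap p (intMap p g) (toPlus p (xi p))) = _
    rw [plusMap_toPlus]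
    change algebraMap (BP p) (BB p) (tp (gL p g (xi p))) = _
    rw [hu, map_mul, map_mul]
  set T := tp (u : LL p) with hT
  have h3 := congrArg (gB g) h1
  rw [map_mul, map_pow, hgX, h g hg, map_mul, map_pow, hgX] at h3
  have h4 : gB g (algebraMap (BP p) (BB p) b') = algebraMap (BP p) (BB p) (gP g b') :=
    bdrMap_algebraMap p _ b'
  have h5 : algebraMap ℚ_[p] (BB p) (lam g) =
      algebraMap (BP p) (BB p) (algebraMap ℚ_[p] (BP p) (lam g)) := rfl
  rw [h4, h5] at h3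
  have h6 : algebraMap (BP p) (BB p) (xip p ^ n * (T ^ m * algebraMap ℚ_[p] (BP p) (lam g) * b')) =
      algebraMap (BP p) (BB p) (xip p ^ n * (T ^ n * gP g b')) := by
    simp only [map_mul, map_pow]
    rw [← hX]
    linear_combination h3 - (algebraMap (BP p) (BB p) T ^ m *
      algebraMap (BP p) (BB p) (algebraMap ℚ_[p] (BP p) (lam g))) * h1
  have h7 := congrArg (thP p) (xip_pow_mul (iota_inj h6))
  rw [map_mul, map_mul, map_mul, map_pow, map_pow, thP_gP, thP_algebraMap, hT, thP_tp] at h7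
  -- final computation in `ℂ_[p]`
  set c := thP p b' with hc
  set al := thC p (u : LL p) with hal
  have hal0 : al ≠ 0 := (u.isUnit.map (thC p)).ne_zero
  have hgOm : cpMap p g Om ≠ 0 := fun h => hOm ((map_eq_zero_iff _ (cpMap p g).injective).1 h)
  have hchi : algebraMap ℚ_[p] ℂ_[p] (chiQ g) ≠ 0 := by
    rw [Ne, map_eq_zero_iff _ (algebraMap ℚ_[p] ℂ_[p]).injective]
    exact chiQ_ne_zero g
  have h8 : cpMap p g c = al ^ ((m : ℤ) - n) * algebraMap ℚ_[p] ℂ_[p] (lam g) * c := by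
    rw [zpow_sub₀ hal0, zpow_natCast, zpow_natCast]
    field_simp
    linear_combination -h7
  have h9 : cpMap p g Om = algebraMap ℚ_[p] ℂ_[p] (chiQ g) * Om / al := by
    rw [eq_div_iff hal0, ← h2]
    ring
  rw [map_mul, map_zpow₀, h8, h9, div_zpow, mul_zpow, map_mul, map_zpow₀]
  have h10 : al ^ ((m : ℤ) - n) ≠ 0 := zpow_ne_zero _ hal0
  field_simp

/-- If `g ∈ U` acts on `x ∈ B_dR` by a scalar `lam g ∈ ℚ_p` with `lam g ^ a = χ(g) ^ b`, where `a`
does not divide `b`, and `U` has finite index in the absolute Galois group of `ℚ_p`, then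
`x = 0`. -/
theorem no_period (U : Subgroup (GG p)) [U.FiniteIndex] (lam : GG p → ℚ_[p]) (a : ℕ) (b : ℤ)
    (hab : ¬ (a : ℤ) ∣ b) (hlam : ∀ g ∈ U, lam g ^ a = chiQ g ^ b) {x : BB p}
    (h : ∀ g ∈ U, gB g x = algebraMap ℚ_[p] (BB p) (lam g) * x) : x = 0 := by
  by_contra hx
  obtain ⟨k, c, hc, hk⟩ := leading_coeff (U : Set (GG p)) lam hx h
  have h1 : b + a * k ≠ 0 := by
    intro h0
    exact hab ⟨-k, by linarith⟩
  have h2 : c ^ a = 0 := by
    refine tate U h1 fun g hg => ?_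
    rw [map_pow, hk g hg, mul_pow, ← map_pow, mul_pow, hlam g hg, ← zpow_natCast (chiQ g ^ k),
      ← zpow_mul, ← zpow_add₀ (chiQ_ne_zero g), mul_comm k]
  exact pow_ne_zero a hc h2

end Pool.Agent.N829.HT
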