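import Mathlib
import Pool.Agent.N829.HT.Glob1
import Pool.Agent.N829.HT.Bdr4

/-!
Decomposition groups above `l`: for an embedding `ι` of the algebraic closure of the number field `F`
in the algebraic closure of `ℚ_l`, the absolute Galois group of the completion of `F` acts on the
algebraic closure of `F`.
-/

set_option autoImplicit false
set_option linter.unusedSectionVars false

namespace Pool.Agent.N829.HT

open NumberField IntermediateField

variable {F : Type} [Field F] {l : ℕ} [hl : Fact l.Prime]

/-- `σ` is the restriction of `g` to the algebraic closure of `F`, embedded by `ι`. -/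
def Compat (ι : AlgebraicClosure F →+* PadicAlgCl l) (g : GG l) (σ : AbsGal F) : Prop :=
  ∀ y : AlgebraicClosure F, ι (σ y) = g (ι y)

/-- the closure of `F` in the algebraic closure of `ℚ_l`: the composite of `ℚ_l` and `F` -/
noncomputable def locF (ι : AlgebraicClosure F →+* PadicAlgCl l) :
    IntermediateField ℚ_[l] (PadicAlgCl l) :=
  IntermediateField.adjoin ℚ_[l] (Set.range fun x : F => ι (algebraMap F (AlgebraicClosure F) x))

theorem exists_compat (ι : AlgebraicClosure F →+* PadicAlgCl l) {g : GG l}
    (hg : g ∈ (locF ι).fixingSubgroup) : ∃ σ : AbsGal F, Compat ι g σ := by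
  let i1 : Algebra (AlgebraicClosure F) (PadicAlgCl l) := ι.toAlgebra
  let i2 : Algebra F (PadicAlgCl l) := (ι.comp (algebraMap F (AlgebraicClosure F))).toAlgebra
  have i3 : IsScalarTower F (AlgebraicClosure F) (PadicAlgCl l) := IsScalarTower.of_algebraMap_eq fun _ => rfl
  let g' : PadicAlgCl l ≃ₐ[F] PadicAlgCl l :=
    AlgEquiv.ofRingEquiv (f := (g : PadicAlgCl l ≃+* PadicAlgCl l)) (fun x => by
      change g (ι (algebraMap F (AlgebraicClosure F) x)) = ι (algebraMap F (AlgebraicClosure F) x)
      exact hg ⟨_, subset_adjoin _ _ ⟨x, rfl⟩⟩)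
  refine ⟨g'.restrictNormal (AlgebraicClosure F), fun y => ?_⟩
  exact g'.restrictNormal_commutes (AlgebraicClosure F) y

variable [NumberField F]

theorem chi_compat {ι : AlgebraicClosure F →+* PadicAlgCl l} {g : GG l} {σ : AbsGal F}
    (h : Compat ι g σ) : chiF F l σ = chi l g := by
  apply Units.ext
  refine PadicInt.ext_of_toZModPow.1 fun n => ?_
  have hn : NeZero (l ^ n) := ⟨pow_ne_zero _ hl.out.ne_zero⟩
  obtain ⟨t, ht⟩ := HasEnoughRootsOfUnity.exists_primitiveRoot (AlgebraicClosure F) (l ^ n)
  have ht' : IsPrimitiveRoot (ι t) (l ^ n) := ht.map_of_injective ι.injective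
  have h1 := h t
  rw [chiF_spec σ ht.pow_eq_one, chi_spec g ht'.pow_eq_one, map_pow] at h1
  exact ZMod.val_injective _ (ht'.pow_inj (ZMod.val_lt _) (ZMod.val_lt _) h1)

instance finiteDimensional_locF (ι : AlgebraicClosure F →+* PadicAlgCl l) :
    FiniteDimensional ℚ_[l] (locF ι) := by
  let b := Module.finBasis ℚ F
  let S : Set (PadicAlgCl l) := Set.range fun i => ι (algebraMap F (AlgebraicClosure F) (b i))
  have hS : Finite S := Set.finite_range _
  have h1 : FiniteDimensional ℚ_[l] (IntermediateField.adjoin ℚ_[l] S) :=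
    finiteDimensional_adjoin fun x _ => Algebra.IsIntegral.isIntegral x
  have h2 : locF ι ≤ IntermediateField.adjoin ℚ_[l] S := by
    rw [locF, adjoin_le_iff]
    rintro _ ⟨x, rfl⟩
    change ι (algebraMap F (AlgebraicClosure F) x) ∈ IntermediateField.adjoin ℚ_[l] S
    rw [← b.sum_repr x, map_sum, map_sum]
    refine sum_mem fun i _ => ?_
    rw [Algebra.smul_def, map_mul, map_mul]
    refine mul_mem ?_ (subset_adjoin _ _ ⟨i, rfl⟩)
    rw [eq_ratCast, map_ratCast, map_ratCast, ← map_ratCast (algebraMap ℚ_[l] (PadicAlgCl l))]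
    exact _root_.algebraMap_mem _ _
  exact Module.Finite.of_injective (IntermediateField.inclusion h2).toLinearMap
    (IntermediateField.inclusion h2).injective

instance finiteIndex_locF (ι : AlgebraicClosure F →+* PadicAlgCl l) :
    (locF ι).fixingSubgroup.FiniteIndex := by
  constructor
  rw [← finrank_eq_fixingSubgroup_index]
  exact Module.finrank_pos.ne'

end Pool.Agent.N829.HT
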